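import Pool.Agent.Helper36.CV.StmtsO

/-!
# MP_e5aeaf_mp, module OF: conclusion of block O
-/

set_option autoImplicit false

namespace Pool.Agent.Helper36.CV

open Filter Topology Pointwise

noncomputable section

theorem of_sp (h9 : ST_O9) (h9b : ST_O9b) (h10 : ST_O10) {l : ℝ} {T : L2 →L[ℂ] L2}
    (hs : IsSelfAdjoint T) (hT : IsH l T) : Sp T = Cs l := by
  apply Set.ext
  intro E
  constructor
  · intro hE
    exact h9b l E ((h10 l T hs hT E).1 hE)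
  · intro hE
    exact (h10 l T hs hT E).2 (h9 l E hE)

theorem st_OF (h1 : ST_O1) (h2 : ST_O2) (h3a : ST_O3a) (h3b : ST_O3b) (h9 : ST_O9)
    (h9b : ST_O9b) (h10 : ST_O10) : ST_OF := by
  intro l1 l2
  obtain ⟨T, hTs, hT⟩ := h2 l1 l2
  obtain ⟨A, hAs, hA⟩ := h1 l1
  obtain ⟨B, hBs, hB⟩ := h1 l2
  refine ⟨T, hT, ?_⟩
  have hsum : Sp2 T = Sp A + Sp B :=
    Set.Subset.antisymm (h3b l1 l2 T A B hTs hT hAs hA hBs hB)
      (h3a l1 l2 T A B hTs hT hAs hA hBs hB)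
  rw [hsum, of_sp h9 h9b h10 hAs hA, of_sp h9 h9b h10 hBs hB]

end

end Pool.Agent.Helper36.CV
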