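import Pool.Agent.Helper52.CV.R9c

set_option autoImplicit false

namespace Pool.Agent.Helper52.CV.R9

open Pool.Agent.Helper36.CV
open Complex Filter Topology MeasureTheory Set

/-- facts on powers -/
lemma pows {ε K K4 : ℝ} (hε : 0 < ε) (hK : 1 ≤ K) (_hK4 : 1 ≤ K4)
    (H1 : 1000 * ε ^ (1 / 50 : ℝ) ≤ 1) (H2 : 4000 * K * ε ^ (1 / 10 : ℝ) ≤ 1)
    (H3 : 10 ^ 6 * (K ^ 2 * K4) * ε ^ (1 / 5 : ℝ) ≤ 1) (H4 : 10 ^ 6 * K * ε ^ (59 / 100 : ℝ) ≤ 1)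
    (H5 : 10 ^ 6 * ε ^ (1 / 3 : ℝ) ≤ 1) :
    ε ≤ 1 / 10 ^ 6 ∧ ε ^ (102 / 100 : ℝ) ≤ ε / 1000 ∧ 4000 * K * ε ^ (11 / 10 : ℝ) ≤ ε ∧
    0 ≤ ε ^ (11 / 10 : ℝ) ∧ 10 ^ 6 * (K ^ 2 * K4) * ε ^ (6 / 5 : ℝ) ≤ ε ∧
    ε ≤ ε ^ (59 / 100 : ℝ) ∧ 10 ^ 5 * ε ≤ ε ^ (2 / 3 : ℝ) := by
  have h1 : (102 / 100 : ℝ) = 1 + 1 / 50 := by norm_num
  have h2 : (11 / 10 : ℝ) = 1 + 1 / 10 := by norm_num
  have h3 : (6 / 5 : ℝ) = 1 + 1 / 5 := by norm_num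
  have hlt : ε ≤ 1 := by
    by_contra hcon
    push Not at hcon
    have : (1:ℝ) ≤ ε ^ (1 / 3 : ℝ) := Real.one_le_rpow hcon.le (by norm_num)
    linarith
  have h59 : ε ≤ ε ^ (59 / 100 : ℝ) := by
    calc ε = ε ^ (1 : ℝ) := (Real.rpow_one ε).symm
      _ ≤ _ := Real.rpow_le_rpow_of_exponent_ge hε hlt (by norm_num)
  have h59' : 0 < ε ^ (59 / 100 : ℝ) := Real.rpow_pos_of_pos hε _
  have hε1 : ε ≤ 1 / 10 ^ 6 := by
    have : 1 * ε ^ (59 / 100 : ℝ) ≤ K * ε ^ (59 / 100 : ℝ) := mul_le_mul_of_nonneg_right hK h59'.le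
    linarith
  refine ⟨hε1, ?_, ?_, (Real.rpow_pos_of_pos hε _).le, ?_, h59, ?_⟩
  · rw [h1, Real.rpow_add hε, Real.rpow_one]
    have := mul_le_mul_of_nonneg_left H1 hε.le
    linarith
  · rw [h2, Real.rpow_add hε, Real.rpow_one]
    have := mul_le_mul_of_nonneg_left H2 hε.le
    linarith
  · rw [h3, Real.rpow_add hε, Real.rpow_one]
    have := mul_le_mul_of_nonneg_left H3 hε.le
    linarith
  · have h4 : ε = ε ^ (2 / 3 : ℝ) * ε ^ (1 / 3 : ℝ) := by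
      rw [← Real.rpow_add hε]; norm_num
    have h5 : 0 < ε ^ (2 / 3 : ℝ) := Real.rpow_pos_of_pos hε _
    have h6 : ε ^ (2 / 3 : ℝ) * (10 ^ 6 * ε ^ (1 / 3 : ℝ)) ≤ ε ^ (2 / 3 : ℝ) * 1 :=
      mul_le_mul_of_nonneg_left H5 h5.le
    have h7 : 10 ^ 6 * ε ≤ ε ^ (2 / 3 : ℝ) := by
      calc 10 ^ 6 * ε = ε ^ (2 / 3 : ℝ) * (10 ^ 6 * ε ^ (1 / 3 : ℝ)) := by
            conv_lhs => rw [h4]
            ring
        _ ≤ _ := by linarith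
    linarith

/-- nn of an end gap -/
lemma nnend {ε K K4 ρ s J p n E : ℝ} (hε : 0 < ε) (hε1 : ε ≤ 1 / 10 ^ 6) (hK : 1 ≤ K) (hK4 : 1 ≤ K4) (hρ : 0 < ρ)
    (hp : 0 < p) (hs : ε * (1 - 5 * ε) * ρ ≤ s) (hJ : J ≤ 4 * p) (hJ0 : 0 ≤ J)
    (hE0 : 0 ≤ E) (hE : 10 ^ 6 * (K ^ 2 * K4) * E ≤ ε)
    (h : n ≤ K4 * E * (1 + ε * ρ / s) * J) : K * n ≤ ε / 1000 * p := by
  have hs0 : 0 < ε * (1 - 5 * ε) * ρ := mul_pos (mul_pos hε (by linarith)) hρ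
  have hs1 : 0 < s := lt_of_lt_of_le hs0 hs
  have h1 : ε * ρ / s ≤ 11 / 10 := by
    rw [div_le_iff₀ hs1]
    have h2 : 99 / 100 * (ε * ρ) ≤ ε * (1 - 5 * ε) * ρ := by
      have := mul_le_mul_of_nonneg_right (by linarith : (99 / 100 : ℝ) ≤ 1 - 5 * ε) (by positivity : 0 ≤ ε * ρ)
      linarith
    have : 0 < ε * ρ := by positivity
    linarith
  have h2 : n ≤ K4 * E * (21 / 10) * (4 * p) := by
    refine h.trans (mul_le_mul (mul_le_mul_of_nonneg_left (by linarith) (by positivity)) hJ hJ0 (by positivity))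
  have h3 : K * n ≤ K * (K4 * E * (21 / 10) * (4 * p)) := mul_le_mul_of_nonneg_left h2 (by linarith)
  have h4 : K * (K4 * E) ≤ K ^ 2 * (K4 * E) := by
    apply mul_le_mul_of_nonneg_right _ (by positivity)
    nlinarith
  have h5 : K * (K4 * E) ≤ ε / 10 ^ 6 := by
    have : K ^ 2 * (K4 * E) = K ^ 2 * K4 * E := by ring
    linarith
  have h6 := mul_le_mul_of_nonneg_right h5 hp.le
  have h7 : 0 < ε * p := by positivity
  linarith [(by ring : K * (K4 * E * (21 / 10) * (4 * p)) = (K * (K4 * E) * p) * (84 / 10))]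

/-- crude bound for nn of the central gap -/
lemma nncen {ε K K4 ρ s J p n E : ℝ} (hε : 0 < ε) (hε1 : ε ≤ 1 / 10 ^ 6) (hK : 1 ≤ K) (hK4 : 1 ≤ K4) (hρ : 0 < ρ)
    (hp : 0 < p) (hs : 39 / 10 * ε ^ 2 * ρ ≤ s) (hJ : J ≤ 4 * p) (hJ0 : 0 ≤ J)
    (hE0 : 0 ≤ E) (hE : 10 ^ 6 * (K ^ 2 * K4) * E ≤ ε)
    (h : n ≤ K4 * E * (1 + ε * ρ / s) * J) : K * (K * n) ≤ 2 / 10 ^ 6 * p := by
  have hs1 : 0 < s := lt_of_lt_of_le (by positivity) hs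
  have h1 : ε * ρ / s ≤ 10 / (39 * ε) := by
    rw [div_le_div_iff₀ hs1 (by positivity)]
    linarith
  have h1' : 1 + ε * ρ / s ≤ 1 / (3 * ε) := by
    have : 1 + 10 / (39 * ε) ≤ 1 / (3 * ε) := by
      rw [show (1:ℝ) / (3 * ε) = 13 / (39 * ε) by field_simp; norm_num,
        show (1:ℝ) + 10 / (39 * ε) = (39 * ε + 10) / (39 * ε) by field_simp]
      apply div_le_div_of_nonneg_right _ (by positivity)
      linarith
    linarith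
  have h2 : n ≤ K4 * E * (1 / (3 * ε)) * (4 * p) := by
    refine h.trans (mul_le_mul (mul_le_mul_of_nonneg_left h1' (by positivity)) hJ hJ0 (by positivity))
  have h3 : K * (K * n) ≤ K * (K * (K4 * E * (1 / (3 * ε)) * (4 * p))) :=
    mul_le_mul_of_nonneg_left (mul_le_mul_of_nonneg_left h2 (by linarith)) (by linarith)
  have h5 : K ^ 2 * K4 * E ≤ ε / 10 ^ 6 := by linarith
  have h6 : (K ^ 2 * K4 * E) * (1 / (3 * ε) * (4 * p)) ≤ (ε / 10 ^ 6) * (1 / (3 * ε) * (4 * p)) :=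
    mul_le_mul_of_nonneg_right h5 (by positivity)
  have h7 : (ε / 10 ^ 6) * (1 / (3 * ε) * (4 * p)) = 4 / 3 / 10 ^ 6 * p := by field_simp
  linarith [(by ring : K * (K * (K4 * E * (1 / (3 * ε)) * (4 * p))) = (K ^ 2 * K4 * E) * (1 / (3 * ε) * (4 * p)))]

lemma pinner {Hm Hp : ℝ} {C : Set ℝ} {cd : CD Hm Hp C} {ε K x ρ α k2 a c s : ℝ} (V : Gap cd) (hρ : 0 < ρ)
    (ha : a = α * ρ) (hc : V.c = x + ρ * c) (hs : V.s = ρ * s)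
    (hc1 : |c| ≤ 59 / 100) (hs1 : s ≤ 1 / 10 ^ 6) (hs2 : V.s ≤ ε ^ (59 / 100 : ℝ) * ρ)
    (hQL : QLaw cd ε K x ρ α k2) :
    a * (1 - 10 * ε) ≤ ρ * V.kk + (K * nn x ρ V + ε ^ (11 / 10 : ℝ) * Yf cd x ρ) ∧
    (∀ (W : Gap cd) (c' s' : ℝ), W.c = x + ρ * c' → W.s = ρ * s' → |c'| ≤ 59 / 100 → s' ≤ 1 / 10 ^ 6 →
      W.s ≤ ε ^ (59 / 100 : ℝ) * ρ → 3 / 10 ≤ |c - c'| →
      |(W.N - V.N) - a * ((c' - c) + k2 / 2 * (c' ^ 2 - c ^ 2))| ≤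
        ε ^ (102 / 100 : ℝ) * a + ε ^ (11 / 10 : ℝ) * Yf cd x ρ + K * (nn x ρ V + nn x ρ W)) := by
  have hpos : ∀ (U : Gap cd) (c s : ℝ), U.c = x + ρ * c → U.s = ρ * s → |c| ≤ 59 / 100 → s ≤ 1 / 10 ^ 6 →
      x - 3 / 5 * ρ ≤ U.a ∧ U.b ≤ x + 3 / 5 * ρ := by
    intro U c s h1 h2 h3 h4
    have h3' := abs_le.mp h3
    have e1 : U.a = U.c - U.s / 2 := by simp only [Gap.c, Gap.s]; ring
    have e2 : U.b = U.c + U.s / 2 := by simp only [Gap.c, Gap.s]; ring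
    have e3 := mul_le_mul_of_nonneg_left h4 hρ.le
    have e4 := mul_le_mul_of_nonneg_left h3'.1 hρ.le
    have e5 := mul_le_mul_of_nonneg_left h3'.2 hρ.le
    rw [e1, e2, h1, h2]
    constructor <;> linarith
  obtain ⟨-, -, hQ⟩ := hQL
  obtain ⟨p1, p2⟩ := hpos V c s hc hs hc1 hs1
  obtain ⟨q1, q2⟩ := hQ V p1 p2 hs2
  constructor
  · have := mul_le_mul_of_nonneg_left q1 hρ.le
    have e1 : ρ * (V.kk + K / ρ * nn x ρ V + ε ^ (11 / 10 : ℝ) * Yf cd x ρ / ρ) =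
        ρ * V.kk + (K * nn x ρ V + ε ^ (11 / 10 : ℝ) * Yf cd x ρ) := by field_simp; ring
    rw [e1] at this
    rw [ha]
    linarith
  · intro W c' s' h1 h2 h3 h4 h5 h6
    obtain ⟨r1, r2⟩ := hpos W c' s' h1 h2 h3 h4
    have h7 : 3 / 10 * ρ ≤ |V.c - W.c| := by
      rw [hc, h1, show x + ρ * c - (x + ρ * c') = ρ * (c - c') by ring, abs_mul, abs_of_pos hρ]
      have := mul_le_mul_of_nonneg_left h6 hρ.le
      linarith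
    have h8 := q2 W r1 r2 h5 h7
    have e2 : α * ((W.c - V.c) + k2 / (2 * ρ) * ((W.c - x) ^ 2 - (V.c - x) ^ 2)) =
        a * ((c' - c) + k2 / 2 * (c' ^ 2 - c ^ 2)) := by
      rw [hc, h1, ha]; field_simp; ring
    rw [e2] at h8
    rw [ha] at *
    linarith

/-- parameters -/
lemma params {cK K K4 eQ8 eR0 eR2 eR3 eR4 eR5 : ℝ} (h1 : 0 < eQ8) (h2 : 0 < eR0) (h3 : 0 < eR2)
    (h4 : 0 < eR3) (h5 : 0 < eR4) (h6 : 0 < eR5) (hcK : 1 ≤ cK) :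
    ∃ e : ℝ, 0 < e ∧ ∀ ε : ℝ, 0 < ε → ε ≤ e → ε ≤ eQ8 ∧ ε ≤ eR0 ∧ ε ≤ eR2 ∧ ε ≤ eR3 ∧ ε ≤ eR4 ∧ ε ≤ eR5 ∧
      cK * ε ≤ 1 / 1000 ∧ 1000 * ε ^ (1 / 50 : ℝ) ≤ 1 ∧ 4000 * K * ε ^ (1 / 10 : ℝ) ≤ 1 ∧
      10 ^ 6 * (K ^ 2 * K4) * ε ^ (1 / 5 : ℝ) ≤ 1 ∧ 10 ^ 6 * K * ε ^ (59 / 100 : ℝ) ≤ 1 ∧
      10 ^ 6 * ε ^ (1 / 3 : ℝ) ≤ 1 := by
  obtain ⟨e1, he1, H1⟩ := small_pow 1000 (1 / 50) 1 (by norm_num) one_pos
  obtain ⟨e2, he2, H2⟩ := small_pow (4000 * K) (1 / 10) 1 (by norm_num) one_pos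
  obtain ⟨e3, he3, H3⟩ := small_pow (10 ^ 6 * (K ^ 2 * K4)) (1 / 5) 1 (by norm_num) one_pos
  obtain ⟨e4, he4, H4⟩ := small_pow (10 ^ 6 * K) (59 / 100) 1 (by norm_num) one_pos
  obtain ⟨e5, he5, H5⟩ := small_pow (10 ^ 6) (1 / 3) 1 (by norm_num) one_pos
  have he6 : 0 < 1 / (1000 * cK) := by positivity
  refine ⟨min eQ8 (min eR0 (min eR2 (min eR3 (min eR4 (min eR5 (min e1 (min e2 (min e3 (min e4 (min e5
    (1 / (1000 * cK)))))))))))), ?_, ?_⟩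
  · simp only [lt_min_iff]
    exact ⟨h1, h2, h3, h4, h5, h6, he1, he2, he3, he4, he5, he6⟩
  · intro ε hε hle
    simp only [le_min_iff] at hle
    obtain ⟨a1, a2, a3, a4, a5, a6, a7, a8, a9, a10, a11, a12⟩ := hle
    refine ⟨a1, a2, a3, a4, a5, a6, ?_, H1 ε hε a7, H2 ε hε a8, H3 ε hε a9, H4 ε hε a10, H5 ε hε a11⟩
    have : cK * ε ≤ cK * (1 / (1000 * cK)) := mul_le_mul_of_nonneg_left a12 (by linarith)
    have e : cK * (1 / (1000 * cK)) = 1 / 1000 := by field_simp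
    linarith

lemma absn {ρ X A Y c : ℝ} (hρ : 0 < ρ) (hX : X = ρ * A) (h : |X - Y * ρ| ≤ c * ρ) : |A - Y| ≤ c := by
  rw [hX, show ρ * A - Y * ρ = ρ * (A - Y) by ring, abs_mul, abs_of_pos hρ] at h
  exact le_of_mul_le_mul_left (by linarith only [h]) hρ

lemma Nfc {Hm Hp : ℝ} {C : Set ℝ} {cd : CD Hm Hp C} (V : Gap cd) :
    Nf cd V.c = V.N ∧ Nf cd V.a = V.N ∧ Nf cd V.b = V.N := by
  have h := V.lt
  have hc : V.c = (V.a + V.b) / 2 := rfl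
  refine ⟨V.lab _ ⟨?_, ?_⟩, V.lab _ ⟨le_rfl, h.le⟩, V.lab _ ⟨h.le, le_rfl⟩⟩ <;> rw [hc] <;> linarith

lemma Nmono {Hm Hp : ℝ} {C : Set ℝ} {cd : CD Hm Hp C} {s t : ℝ} (h : s ≤ t) : Nf cd s ≤ Nf cd t :=
  cd.re_mono s t h

/-- the end gaps -/
lemma ends (hQ4 : ST_Q4) (hN0 : ST_N0) {ε Hm Hp cK K K4 e23 τ α k2 x ρ J p : ℝ} {C : Set ℝ}
    {cd : CD Hm Hp C} {VL VR : Gap cd}
    (hPar : Par ε Hm Hp) (hε1 : ε ≤ 1 / 10 ^ 6) (hcK : cK * ε ≤ 1 / 1000) (hK : 1 ≤ K) (hK4 : 1 ≤ K4) (hτ : |τ| ≤ 1)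
    (hρ : 0 < ρ) (hJ : J = Yf cd x ρ) (hJ0 : 0 < J) (hp : p = VR.N - VL.N) (hJp : J ≤ 4 * p) (hpe : p ≤ 12 * ε ^ 3)
    (h23 : 10 ^ 5 * ε ≤ e23) (h102 : ε ^ (102 / 100 : ℝ) ≤ ε / 1000) (h110 : 4000 * K * ε ^ (11 / 10 : ℝ) ≤ ε)
    (h110p : 0 ≤ ε ^ (11 / 10 : ℝ)) (h120 : 10 ^ 6 * (K ^ 2 * K4) * ε ^ (6 / 5 : ℝ) ≤ ε)
    (h59 : ε ^ (59 / 100 : ℝ) ≤ 1 / 10 ^ 6)
    (hQL : QLaw cd ε K x ρ α k2)
    {A0 A2 cL cR sL sR : ℝ}
    (hA0 : |A0 - ε * (1 + 2 * ε * τ)| ≤ cK * ε ^ 3) (hA2 : |A2 - ε * (1 - 2 * ε * τ)| ≤ cK * ε ^ 3)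
    (hcL : VL.c = x + ρ * cL) (hcR : VR.c = x + ρ * cR) (hsL : VL.s = ρ * sL) (hsR : VR.s = ρ * sR)
    (hsL59 : VL.s ≤ ε ^ (59 / 100 : ℝ) * ρ) (hsR59 : VR.s ≤ ε ^ (59 / 100 : ℝ) * ρ)
    (cL0 : |cL - (-1 / 2 + A0 / 2)| ≤ 1 / 10 ^ 5) (cR0 : |cR - (1 / 2 - A2 / 2)| ≤ 1 / 10 ^ 5)
    (sL1 : (1 - 26 / 10 * ε) * A0 ≤ sL) (sR1 : (1 - 26 / 10 * ε) * A2 ≤ sR)
    (sL3 : sL < 21 / 20 * A0 → |cL - (-1 / 2 + A0 / 2)| ≤ (sL - A0) / 2 + A0 / 10)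
    (sR3 : sR < 21 / 20 * A2 → |cR - (1 / 2 - A2 / 2)| ≤ (sR - A2) / 2 + A2 / 10)
    (sL2 : sL < (1 + 30 * e23) * A0 → |cL - (-1 / 2 + A0 / 2)| ≤ (sL - A0) / 2 + 13 / 10 * ε * A0)
    (sR2 : sR < (1 + 30 * e23) * A2 → |cR - (1 / 2 - A2 / 2)| ≤ (sR - A2) / 2 + 13 / 10 * ε * A2)
    (hnL : nn x ρ VL ≤ K4 * ε ^ (6 / 5 : ℝ) * (1 + ε * ρ / VL.s) * J)
    (hnR : nn x ρ VR ≤ K4 * ε ^ (6 / 5 : ℝ) * (1 + ε * ρ / VR.s) * J) :
    K * nn x ρ VL ≤ ε / 1000 * p ∧ K * nn x ρ VR ≤ ε / 1000 * p ∧ ε ^ (11 / 10 : ℝ) * J ≤ ε / 1000 * p ∧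
    |zn (VR.n - VL.n, VR.m - VL.m)| = 1 ∧ p * |VL.mu + VR.mu| ≤ 117 * ε ∧ |cL - (-1 / 2 + A0 / 2)| ≤ 130 * ε ^ 2 ∧
    |cR - (1 / 2 - A2 / 2)| ≤ 130 * ε ^ 2 ∧ α * ρ ≤ p * (1 + 2 * ε) ∧ p ≤ 102 / 100 * (α * ρ) ∧
    p ≤ α * ρ * ((cR - cL) + 6 * (ε / 1000)) ∧ 0 ≤ cR - cL ∧ (cR - cL) + 6 * (ε / 1000) ≤ 1 := by
  have hε : 0 < ε := hPar.1
  have hp0 : 0 < p := by linarith only [hJ0, hJp]
  have hεε : ε ^ 2 ≤ 1 / 10 ^ 6 * ε := by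
    have := mul_le_mul_of_nonneg_right hε1 hε.le
    linarith only [this]
  have hA0' := abs_le.mp (childsize hε hτ hcK hA0)
  have hA2' : |A2 - ε| ≤ 2001 / 1000 * ε ^ 2 := by
    refine childsize hε (τ := -τ) (by rwa [abs_neg]) hcK ?_
    have e : ε * (1 + 2 * ε * -τ) = ε * (1 - 2 * ε * τ) := by ring
    rwa [e]
  have hA2'' := abs_le.mp hA2'
  have E0 : 0 ≤ ε ^ (6 / 5 : ℝ) := (Real.rpow_pos_of_pos hε _).le
  have hsl : ∀ A s : ℝ, -(2001 / 1000 * ε ^ 2) ≤ A - ε → (1 - 26 / 10 * ε) * A ≤ s → ε * (1 - 5 * ε) ≤ s := by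
    intro A s h1 h2
    have h3 : (1 - 26 / 10 * ε) * (ε * (1 - 2001 / 1000 * ε)) ≤ (1 - 26 / 10 * ε) * A :=
      mul_le_mul_of_nonneg_left (by linarith only [h1]) (by linarith only [hε1])
    have h4 : 1 - 5 * ε ≤ (1 - 26 / 10 * ε) * (1 - 2001 / 1000 * ε) := by
      linarith only [hε, sq_nonneg ε]
    have h5 := mul_le_mul_of_nonneg_left h4 hε.le
    linarith only [h3, h5, h2]
  have hsL' := hsl _ _ hA0'.1 sL1
  have hsR' := hsl _ _ hA2''.1 sR1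
  have kL : K * nn x ρ VL ≤ ε / 1000 * p := by
    refine nnend hε hε1 hK hK4 hρ hp0 ?_ hJp hJ0.le E0 h120 hnL
    rw [hsL]; have := mul_le_mul_of_nonneg_left hsL' hρ.le; linarith only [this]
  have kR : K * nn x ρ VR ≤ ε / 1000 * p := by
    refine nnend hε hε1 hK hK4 hρ hp0 ?_ hJp hJ0.le E0 h120 hnR
    rw [hsR]; have := mul_le_mul_of_nonneg_left hsR' hρ.le; linarith only [this]
  have jj : ε ^ (11 / 10 : ℝ) * J ≤ ε / 1000 * p := by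
    have h1 : ε ^ (11 / 10 : ℝ) ≤ ε / 4000 := by
      have : 1 * ε ^ (11 / 10 : ℝ) ≤ K * ε ^ (11 / 10 : ℝ) := mul_le_mul_of_nonneg_right hK h110p
      linarith only [this, h110]
    have := mul_le_mul h1 hJp hJ0.le (by positivity)
    linarith only [this]
  refine ⟨kL, kR, jj, ?_⟩
  have hα : 0 < α := hQL.1
  have ha : 0 < α * ρ := mul_pos hα hρ
  have hsmall : ∀ V : Gap cd, ∀ s : ℝ, V.s = ρ * s → V.s ≤ ε ^ (59 / 100 : ℝ) * ρ → s ≤ 1 / 10 ^ 6 := by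
    intro V s h1 h2
    rw [h1] at h2
    have h3 : s ≤ ε ^ (59 / 100 : ℝ) := le_of_mul_le_mul_left (by linarith only [h2]) hρ
    linarith only [h3, h59]
  have cL0' := abs_le.mp cL0
  have cR0' := abs_le.mp cR0
  have hcLa : |cL| ≤ 59 / 100 := by
    rw [abs_le]; constructor <;> linarith only [cL0'.1, cL0'.2, hA0'.1, hA0'.2, hεε, hε1, hε]
  have hcRa : |cR| ≤ 59 / 100 := by
    rw [abs_le]; constructor <;> linarith only [cR0'.1, cR0'.2, hA2''.1, hA2''.2, hεε, hε1, hε]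
  obtain ⟨lawk, lawd⟩ := pinner VL hρ rfl hcL hsL hcLa (hsmall _ _ hsL hsL59) hsL59 hQL
  obtain ⟨lawkR, -⟩ := pinner VR hρ rfl hcR hsR hcRa (hsmall _ _ hsR hsR59) hsR59 hQL
  have hdist : 3 / 10 ≤ |cL - cR| := by
    rw [abs_sub_comm]
    refine le_trans ?_ (le_abs_self _)
    linarith only [cL0'.2, cR0'.1, hA0'.2, hA2''.2, hεε, hε1, hε]
  have lawd' := lawd VR cR sR hcR hsR hcRa (hsmall _ _ hsR hsR59) hsR59 hdist
  rw [← hJ] at lawk lawkR lawd'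
  rw [← hp] at lawd'
  have h102a : ε ^ (102 / 100 : ℝ) * (α * ρ) ≤ ε / 1000 * (α * ρ) := mul_le_mul_of_nonneg_right h102 ha.le
  have hlaw : |p - α * ρ * ((cR - cL) + k2 / 2 * (cR ^ 2 - cL ^ 2))| ≤ ε / 1000 * (α * ρ) + 3 * (ε / 1000) * p := by
    refine lawd'.trans ?_
    linarith only [h102a, jj, kL, kR]
  have hk2 : |k2| ≤ 9 * ε := by
    have := hQL.2.1
    linarith only [this, h102, hε]
  have hz : ((zn (VR.n - VL.n, VR.m - VL.m) : ℤ) : ℝ) = p * (p - VR.mu + VL.mu) := by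
    obtain ⟨n1, n2, n3, n4, n5, n6, -, -, -⟩ := hN0
    rw [← n2]
    have e1 : zv (VR.n - VL.n, VR.m - VL.m) = p := by
      rw [hp]; simp only [zv, Gap.N]; push_cast; ring
    have e2 : zc (VR.n - VL.n, VR.m - VL.m) = p - VR.mu + VL.mu := by
      have : zc (VR.n - VL.n, VR.m - VL.m) = (VR.N - VR.mu) - (VL.N - VL.mu) := by
        rw [(n6 cd VR).2, (n6 cd VL).2]; simp only [zc]; push_cast; ring
      rw [this, hp]; ring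
    rw [e1, e2]
  have hz0 : zn (VR.n - VL.n, VR.m - VL.m) ≠ 0 := by
    obtain ⟨n1, n2, n3, n4, n5, n6, -, -, -⟩ := hN0
    intro h0
    have h1 := n3 _ h0
    have e1 : zv (VR.n - VL.n, VR.m - VL.m) = p := by
      rw [hp]; simp only [zv, Gap.N]; push_cast; ring
    rw [h1] at e1
    simp [zv] at e1
    exact hp0.ne e1
  have hmk : ∀ (V : Gap cd) (s : ℝ), V.s = ρ * s → |V.mu| * (ρ * V.kk) * s ≤ ε / 2 * (1 + 98 * ε) := by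
    intro V s h
    have h1 := (hQ4 ε Hm Hp C cd hPar (by linarith only [hε1])).2.1 V
    rw [h] at h1
    linarith only [h1]
  exact partLR hε hε1 hcK hτ hA0 hA2 cL0 cR0 sL1 sR1 sL3 sR3 sL2 sR2 h23 hk2 ha hp0 hpe hlaw
    lawk (by linarith only [kL, jj]) lawkR (by linarith only [kR, jj]) (hmk _ _ hsL) (hmk _ _ hsR) hz hz0

/-- the central gap -/
lemma centre (hP1 : ST_P1) (hQ4 : ST_Q4) (hN0 : ST_N0)
    {ε Hm Hp K K4 τ α k2 x ρ J p eR5 : ℝ} {C : Set ℝ}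
    {cd : CD Hm Hp C} {VL VR G : Gap cd}
    (HR5 : ∀ (ε Hm Hp : ℝ) (C : Set ℝ) (cd : CD Hm Hp C), Par ε Hm Hp → ε ≤ eR5 →
      ∀ (x ρ p Nc : ℝ) (G : Gap cd), 0 < ρ → Reg cd ε x ρ ρ (fun _ => False) → 0 < p → p ≤ 1 / 10 ^ 4 →
      Yf cd x ρ ≤ 4 * p → p ≤ 12 * Yf cd G.c (52 / 100 * ρ) → |G.c - x| ≤ 3 / 10 * ρ →
      39 / 10 * ε ^ 2 * ρ ≤ G.s → G.s ≤ ε ^ (59 / 100 : ℝ) * ρ →
      |2 * (G.N - Nc) / p| ≤ 1 / 25 →
      (∀ W : Gap cd, W.Meets G.c (ρ / 10) → |2 * (W.N - Nc) / p| ≤ 1 ∧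
        1 ≤ |2 * (W.N - Nc) / p| * (2 * p * |W.mu| + 1 / 4)) →
      nn x ρ G ≤ 60 * ε * (2 * (G.N - Nc) / p) ^ 2 * p + ε ^ (11 / 10 : ℝ) * p)
    (he5 : ε ≤ eR5)
    (hPar : Par ε Hm Hp) (hε1 : ε ≤ 1 / 10 ^ 6) (hK : 1 ≤ K) (hK4 : 1 ≤ K4) (hτ : |τ| ≤ 1)
    (hρ : 0 < ρ) (hReg : Reg cd ε x ρ ρ (fun _ => False))
    (hJ : J = Yf cd x ρ) (hJ0 : 0 < J) (hp : p = VR.N - VL.N) (hJp : J ≤ 4 * p) (hpe : p ≤ 12 * ε ^ 3)
    (h102 : ε ^ (102 / 100 : ℝ) ≤ ε / 1000) (h110 : 4000 * K * ε ^ (11 / 10 : ℝ) ≤ ε)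
    (h110p : 0 ≤ ε ^ (11 / 10 : ℝ)) (h120 : 10 ^ 6 * (K ^ 2 * K4) * ε ^ (6 / 5 : ℝ) ≤ ε)
    (h59 : ε ^ (59 / 100 : ℝ) ≤ 1 / 10 ^ 6) (h59K : 10 ^ 6 * K * ε ^ (59 / 100 : ℝ) ≤ 1) (h59l : ε ≤ ε ^ (59 / 100 : ℝ))
    (hQL : QLaw cd ε K x ρ α k2)
    {A0 A2 cL cR sL sR cA A1 cG sG : ℝ}
    (hA0 : |A0 - ε| ≤ 2001 / 1000 * ε ^ 2) (hA2 : |A2 - ε| ≤ 2001 / 1000 * ε ^ 2)
    (hA1 : |A1 - 4 * ε ^ 2| ≤ ε ^ 2 / 1000) (hcA : |cA - 3 / 4 * τ * ε| ≤ ε / 1000)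
    (hcL : VL.c = x + ρ * cL) (hcR : VR.c = x + ρ * cR) (hcG : G.c = x + ρ * cG)
    (hsL : VL.s = ρ * sL) (hsR : VR.s = ρ * sR) (hsG : G.s = ρ * sG)
    (hsL59 : VL.s ≤ ε ^ (59 / 100 : ℝ) * ρ) (hsR59 : VR.s ≤ ε ^ (59 / 100 : ℝ) * ρ)
    (hsG59 : G.s ≤ ε ^ (59 / 100 : ℝ) * ρ)
    (sG1 : (1 - 26 / 10 * ε) * A1 ≤ sG) (hGA : |cG - cA| ≤ sG / 2 + 26 / 100 * ε)
    (sG4 : |cG - cA| ≤ sG / 2 - 2 / 5 * A1 ∨ (21 / 20 * A1 ≤ sG ∧ |cG - cA| ≤ sG / 2 + A1 / 2) ∨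
      (21 / 20 * A1 ≤ sG ∧ sG / 2 < |cG - cA| ∧
        8 * ε * |cG - cA| * (|cG - cA| ^ 2 - (sG / 2) ^ 2) ≤ A1 * (sG / 2) ^ 2))
    (hnG : nn x ρ G ≤ K4 * ε ^ (6 / 5 : ℝ) * (1 + ε * ρ / G.s) * J)
    (kL : K * nn x ρ VL ≤ ε / 1000 * p) (kR : K * nn x ρ VR ≤ ε / 1000 * p) (jj : ε ^ (11 / 10 : ℝ) * J ≤ ε / 1000 * p)
    (hu : |zn (VR.n - VL.n, VR.m - VL.m)| = 1) (hmu : p * |VL.mu + VR.mu| ≤ 117 * ε)
    (cL3 : |cL - (-1 / 2 + A0 / 2)| ≤ 130 * ε ^ 2) (cR3 : |cR - (1 / 2 - A2 / 2)| ≤ 130 * ε ^ 2)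
    (hap : α * ρ ≤ p * (1 + 2 * ε)) (hpa : p ≤ 102 / 100 * (α * ρ))
    (hpd : p ≤ α * ρ * ((cR - cL) + 6 * (ε / 1000))) (hd0 : 0 ≤ cR - cL) (hd1 : (cR - cL) + 6 * (ε / 1000) ≤ 1) :
    False := by
  have hε : 0 < ε := hPar.1
  have hp0 : 0 < p := by linarith only [hJ0, hJp]
  have hα : 0 < α := hQL.1
  have ha : 0 < α * ρ := mul_pos hα hρ
  have hεε : ε ^ 2 ≤ 1 / 10 ^ 6 * ε := by
    have := mul_le_mul_of_nonneg_right hε1 hε.le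
    linarith only [this]
  have hε2 : 0 < ε ^ 2 := by positivity
  have hε3 : ε ^ 3 ≤ 1 / 10 ^ 6 * ε ^ 2 := by
    have := mul_le_mul_of_nonneg_right hε1 hε2.le
    linarith only [this]
  have hA0' := abs_le.mp hA0
  have hA2' := abs_le.mp hA2
  have hA1' := abs_le.mp hA1
  have cL3' := abs_le.mp cL3
  have cR3' := abs_le.mp cR3
  have hA1p : 0 < A1 := by linarith only [hA1'.1, hε2]
  have hA1u : A1 ≤ 41 / 10 * ε ^ 2 := by linarith only [hA1'.2, hε2]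
  have hsG0 : 399 / 100 * ε ^ 2 ≤ sG := by
    have h3 : (1 - 26 / 10 * ε) * (3999 / 1000 * ε ^ 2) ≤ (1 - 26 / 10 * ε) * A1 :=
      mul_le_mul_of_nonneg_left (by linarith only [hA1'.1]) (by linarith only [hε1])
    linarith only [h3, sG1, hε3, hε2]
  have hsGp : 0 < sG := lt_of_lt_of_le (by positivity) hsG0
  have hsmall : ∀ V : Gap cd, ∀ s : ℝ, V.s = ρ * s → V.s ≤ ε ^ (59 / 100 : ℝ) * ρ → s ≤ ε ^ (59 / 100 : ℝ) := by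
    intro V s h1 h2
    rw [h1] at h2
    exact le_of_mul_le_mul_left (by linarith only [h2]) hρ
  have hsG6 := hsmall _ _ hsG hsG59
  have hsG7 : sG ≤ 1 / 10 ^ 6 := hsG6.trans h59
  have hδ0 : 0 ≤ |cG - cA| := abs_nonneg _
  have hcA' : |cA| ≤ 3 / 4 * ε + ε / 1000 := by
    have e1 : cA = (cA - 3 / 4 * τ * ε) + 3 / 4 * τ * ε := by ring
    rw [e1]
    refine (abs_add_le _ _).trans ?_
    have e2 : |3 / 4 * τ * ε| ≤ 3 / 4 * ε := by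
      rw [abs_mul, abs_mul, abs_of_pos hε, abs_of_pos (by norm_num : (0:ℝ) < 3 / 4)]
      have := mul_le_mul_of_nonneg_right hτ hε.le
      linarith only [this]
    linarith only [hcA, e2]
  have hcG2 : |cG| ≤ |cG - cA| + 3 / 4 * ε + ε / 1000 := by
    have e1 : cG = (cG - cA) + cA := by ring
    have := abs_add_le (cG - cA) cA
    rw [← e1] at this
    linarith only [this, hcA']
  have hcG3 : |cG| ≤ 1 / 10 ^ 5 := by linarith only [hcG2, hGA, hsG7, hε1]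
  have hcG3' := abs_le.mp hcG3
  have hcLa : |cL| ≤ 1 / 2 := by
    rw [abs_le]; constructor <;> linarith only [cL3'.1, cL3'.2, hA0'.1, hA0'.2, hεε, hε1, hε]
  have hcRa : |cR| ≤ 1 / 2 := by
    rw [abs_le]; constructor <;> linarith only [cR3'.1, cR3'.2, hA2'.1, hA2'.2, hεε, hε1, hε]
  have hsum : |cL + cR| ≤ ε / 1000 := by
    rw [abs_le]; constructor <;> linarith only [cL3'.1, cL3'.2, cR3'.1, cR3'.2, hA0'.1, hA0'.2, hA2'.1, hA2'.2, hεε, hε]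
  have hcLl : cL ≤ -(49 / 100) := by linarith only [cL3'.2, hA0'.2, hεε, hε1, hε]
  have hcRl : 49 / 100 ≤ cR := by linarith only [cR3'.1, hA2'.2, hεε, hε1, hε]
  -- laws
  obtain ⟨-, lawL⟩ := pinner VL hρ rfl hcL hsL (hcLa.trans (by norm_num)) ((hsmall _ _ hsL hsL59).trans h59) hsL59 hQL
  obtain ⟨lawk, lawG⟩ := pinner G hρ rfl hcG hsG (hcG3.trans (by norm_num)) hsG7 hsG59 hQL
  have hd1' : 3 / 10 ≤ |cL - cG| := by
    rw [abs_sub_comm]; refine le_trans ?_ (le_abs_self _); linarith only [hcLl, hcG3'.1]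
  have hd2' : 3 / 10 ≤ |cG - cR| := by
    rw [abs_sub_comm]; refine le_trans ?_ (le_abs_self _); linarith only [hcRl, hcG3'.2]
  have E1 := lawL G cG sG hcG hsG (hcG3.trans (by norm_num)) hsG7 hsG59 hd1'
  have E2 := lawG VR cR sR hcR hsR (hcRa.trans (by norm_num)) ((hsmall _ _ hsR hsR59).trans h59) hsR59 hd2'
  rw [← hJ] at E1 E2 lawk
  have h102a : ε ^ (102 / 100 : ℝ) * (α * ρ) ≤ ε / 1000 * (α * ρ) := mul_le_mul_of_nonneg_right h102 ha.le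
  have hk2 : |k2| ≤ 8 * ε + ε / 1000 := by
    have := hQL.2.1
    linarith only [this, h102]
  have hEE : (ε ^ (102 / 100 : ℝ) * (α * ρ) + ε ^ (11 / 10 : ℝ) * J + K * (nn x ρ VL + nn x ρ G)) +
      (ε ^ (102 / 100 : ℝ) * (α * ρ) + ε ^ (11 / 10 : ℝ) * J + K * (nn x ρ G + nn x ρ VR)) ≤
      2 * (ε / 1000) * (α * ρ) + 4 * (ε / 1000) * p + 2 * (K * nn x ρ G) := by
    linarith only [h102a, jj, kL, kR]
  have hT := Tbound hε hε1 ha hap hp0 hk2 hsum hcLa hcRa (hcG3.trans (by norm_num)) hcG2 hδ0 E1 E2 hEE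
  -- β
  obtain ⟨β, hβ⟩ : ∃ β : ℝ, β = 2 * (G.N - (VL.N + VR.N) / 2) / p := ⟨_, rfl⟩
  have hβp : |β| * p = |2 * G.N - VL.N - VR.N| := by
    have e1 : β * p = 2 * G.N - VL.N - VR.N := by rw [hβ]; field_simp; ring
    rw [← e1, abs_mul, abs_of_pos hp0]
  have hT' : |β| * p ≤ p * (1001 / 1000 * (2 * |cG - cA|) + 3515 / 1000 * ε) + 2 * (K * nn x ρ G) := by
    rw [hβp]; exact hT
  have hs39 : 39 / 10 * ε ^ 2 * ρ ≤ G.s := by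
    rw [hsG]
    have := mul_le_mul_of_nonneg_left hsG0 hρ.le
    have h2 : 0 < ε ^ 2 * ρ := by positivity
    linarith only [this, h2]
  have hKK := nncen hε hε1 hK hK4 hρ hp0 hs39 hJp hJ0.le (Real.rpow_pos_of_pos hε _).le h120 hnG
  have hδs : |cG - cA| ≤ 77 / 100 * ε ^ (59 / 100 : ℝ) := by
    linarith only [hGA, hsG6, h59l, hε]
  have hKβ : K * |β| ≤ 1 / 10 ^ 5 := by
    have e1 : K * (|β| * p) ≤ K * (p * (1001 / 1000 * (2 * |cG - cA|) + 3515 / 1000 * ε) + 2 * (K * nn x ρ G)) :=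
      mul_le_mul_of_nonneg_left hT' (by linarith only [hK])
    have e2 : K * (1001 / 1000 * (2 * |cG - cA|) + 3515 / 1000 * ε) ≤ K * (52 / 10 * ε ^ (59 / 100 : ℝ)) :=
      mul_le_mul_of_nonneg_left (by linarith only [hδs, h59l, hε]) (by linarith only [hK])
    have e3 : K * (1001 / 1000 * (2 * |cG - cA|) + 3515 / 1000 * ε) ≤ 52 / 10 / 10 ^ 6 := by
      linarith only [e2, h59K]
    have e4 := mul_le_mul_of_nonneg_right e3 hp0.le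
    refine le_of_mul_le_mul_right ?_ hp0
    linarith only [e1, e4, hKK, hp0]
  have hβ1 : |β| ≤ 1 / 10 ^ 5 := by
    have : 1 * |β| ≤ K * |β| := mul_le_mul_of_nonneg_right hK (abs_nonneg _)
    linarith only [this, hKβ]
  have hKβ2 : K * β ^ 2 ≤ 1 / 10 ^ 10 := by
    rw [← sq_abs]
    have := mul_le_mul hKβ hβ1 (abs_nonneg _) (by norm_num)
    linarith only [this]
  have hpε2 : p ≤ ε ^ 2 := by linarith only [hpe, hε3, hε2]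
  have hp2 : p ^ 2 ≤ 1 / 10 ^ 6 * ε := by
    have h1 : p ≤ ε := by linarith only [hpε2, hεε, hε]
    exact (pow_le_pow_left₀ hp0.le h1 2).trans hεε
  have hp1 : p ≤ 1 / 10 ^ 4 := by linarith only [hpε2, hεε, hε1, hε]
  -- Q5 data
  have hP := hP1 Hm Hp C cd
  have hp12 : p ≤ 12 * Yf cd G.c (52 / 100 * ρ) := by
    have h6 := hP.2.2.2.2.2 G.c (52 / 100 * ρ) VR.c VL.c (by positivity)
      (by
        rw [hcR, hcG, show x + ρ * cR - (x + ρ * cG) = ρ * (cR - cG) by ring, abs_mul, abs_of_pos hρ]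
        have h1 : |cR - cG| ≤ 52 / 100 := by
          rw [abs_le]; constructor <;> linarith only [(abs_le.mp hcRa).2, hcG3'.1, hcG3'.2, hcRl]
        have := mul_le_mul_of_nonneg_left h1 hρ.le
        linarith only [this])
      (by
        rw [hcL, hcG, show x + ρ * cL - (x + ρ * cG) = ρ * (cL - cG) by ring, abs_mul, abs_of_pos hρ]
        have h1 : |cL - cG| ≤ 52 / 100 := by
          rw [abs_le]; constructor <;> linarith only [(abs_le.mp hcLa).1, hcG3'.1, hcG3'.2, hcLl]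
        have := mul_le_mul_of_nonneg_left h1 hρ.le
        linarith only [this])
    rw [(Nfc VR).1, (Nfc VL).1] at h6
    rw [hp]
    exact (le_abs_self _).trans h6
  have hGx : |G.c - x| ≤ 3 / 10 * ρ := by
    rw [hcG, show x + ρ * cG - x = ρ * cG by ring, abs_mul, abs_of_pos hρ]
    have := mul_le_mul_of_nonneg_left hcG3 hρ.le
    linarith only [this, hρ]
  have hbW : ∀ W : Gap cd, 1 ≤ |2 * (W.N - (VL.N + VR.N) / 2) / p| *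
      (p ^ 2 * |2 * (W.N - (VL.N + VR.N) / 2) / p| + 2 * p * |W.mu| + 117 * ε) :=
    fun W => betaW hN0 VL VR W hp hp0 hu hmu
  have hWall : ∀ W : Gap cd, W.Meets G.c (ρ / 10) → |2 * (W.N - (VL.N + VR.N) / 2) / p| ≤ 1 ∧
        1 ≤ |2 * (W.N - (VL.N + VR.N) / 2) / p| * (2 * p * |W.mu| + 1 / 4) := by
    intro W hW
    have w1 : VL.N ≤ W.N := by
      rw [← (Nfc VL).1, ← (Nfc W).2.2]
      apply Nmono
      have h1 := hW.2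
      rw [hcG] at h1
      rw [hcL]
      have e1 := mul_le_mul_of_nonneg_left hcLl hρ.le
      have e2 := mul_le_mul_of_nonneg_left hcG3'.1 hρ.le
      linarith only [h1, e1, e2, hρ]
    have w2 : W.N ≤ VR.N := by
      rw [← (Nfc VR).1, ← (Nfc W).2.1]
      apply Nmono
      have h1 := hW.1
      rw [hcG] at h1
      rw [hcR]
      have e1 := mul_le_mul_of_nonneg_left hcRl hρ.le
      have e2 := mul_le_mul_of_nonneg_left hcG3'.2 hρ.le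
      linarith only [h1, e1, e2, hρ]
    have w3 : |2 * (W.N - (VL.N + VR.N) / 2) / p| ≤ 1 := by
      rw [abs_div, abs_of_pos hp0, div_le_one hp0, abs_le]
      constructor <;> linarith only [w1, w2, hp]
    refine ⟨w3, (hbW W).trans (mul_le_mul_of_nonneg_left ?_ (abs_nonneg _))⟩
    have := mul_le_mul_of_nonneg_left w3 (sq_nonneg p)
    linarith only [this, hp2, hε1, hε]
  have hR5 := HR5 ε Hm Hp C cd hPar he5 x ρ p ((VL.N + VR.N) / 2) G hρ hReg hp0 hp1 (by rw [← hJ]; exact hJp)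
    hp12 hGx hs39 hsG59 (by rw [← hβ]; linarith only [hβ1]) hWall
  rw [← hβ] at hR5
  have kG : K * nn x ρ G ≤ ε / 1000 * p := by
    have e1 : K * nn x ρ G ≤ K * (60 * ε * β ^ 2 * p + ε ^ (11 / 10 : ℝ) * p) :=
      mul_le_mul_of_nonneg_left hR5 (by linarith only [hK])
    have e2 : (K * β ^ 2) * (60 * ε * p) ≤ 1 / 10 ^ 10 * (60 * ε * p) :=
      mul_le_mul_of_nonneg_right hKβ2 (by positivity)
    have e3 : (4000 * K * ε ^ (11 / 10 : ℝ)) * p ≤ ε * p := mul_le_mul_of_nonneg_right h110 hp0.le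
    have e4 : 0 < ε * p := by positivity
    linarith only [e1, e2, e3, e4]
  have hβf : |β| ≤ 1001 / 1000 * (2 * |cG - cA|) + 352 / 100 * ε := by
    refine le_of_mul_le_mul_right ?_ hp0
    have : 0 < ε * p := by positivity
    linarith only [hT', kG, this]
  have hmk : |G.mu| * (ρ * G.kk) * sG ≤ ε / 2 * (1 + 98 * ε) := by
    have h1 := (hQ4 ε Hm Hp C cd hPar (by linarith only [hε1])).2.1 G
    rw [hsG] at h1
    linarith only [h1]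
  obtain ⟨-, hmG⟩ := mub hε hε1 ha hp0 hpa hpd hd0 lawk (by linarith only [kG, jj]) (abs_nonneg G.mu) hsGp hmk
  have hmG2 : |G.mu| * sG * p ≤ ε / 2 * (1 + 110 * ε) := by
    refine hmG.trans ?_
    exact mul_le_of_le_one_right (by positivity) hd1
  have hG1 := hbW G
  rw [← hβ] at hG1
  have hdG := deltaG hε hε1 hA1p hA1u hsG0 hδ0 sG4
  refine final hε hε1 hsG0 hsG7 hdG (abs_nonneg β) hβf ?_ hG1
  have e1 : p ^ 2 * |β| ≤ ε := by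
    have := mul_le_mul hp2 hβ1 (abs_nonneg _) (by positivity)
    linarith only [this, hε]
  have e2 : (p ^ 2 * |β| + 117 * ε) * sG ≤ (ε + 117 * ε) * sG :=
    mul_le_mul_of_nonneg_right (by linarith only [e1]) hsGp.le
  linarith only [e2, hmG2, hεε, hε]

theorem st_R9 (hP1 : ST_P1) (hQ4 : ST_Q4) (hQ8 : ST_Q8) (hR0 : ST_R0) (hR2 : ST_R2) (hR3 : ST_R3)
    (hR4 : ST_R4) (hR5 : ST_R5) (hN0 : ST_N0) : ST_R9 := by
  intro cK K hcK hK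
  obtain ⟨eQ8, heQ8, HQ8⟩ := hQ8
  obtain ⟨eR0, heR0, HR0⟩ := hR0
  obtain ⟨eR2, heR2, HR2⟩ := hR2 cK hcK
  obtain ⟨eR3, heR3, HR3⟩ := hR3 cK hcK
  obtain ⟨K4, eR4, hK4, heR4, HR4⟩ := hR4
  obtain ⟨eR5, heR5, HR5⟩ := hR5
  obtain ⟨e0, he0, H0⟩ := params (K := K) (K4 := K4) heQ8 heR0 heR2 heR3 heR4 heR5 hcK
  refine ⟨e0, he0, ?_⟩
  intro ε Hm Hp C cd hPar hle τ l r l0 r0 l1 r1 l2 r2 VL VR hpair α k2 hQL G hG
  have hε : 0 < ε := hPar.1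
  obtain ⟨b1, b2, b3, b4, b5, b6, hcKε, s1, s2, s3, s4, s5⟩ := H0 ε hε hle
  obtain ⟨hε1, h102, h110, h110p, h120, h59l, h23⟩ := pows hε hK hK4 s1 s2 s3 s4 s5
  have hkids := hpair.kids
  obtain ⟨hLR, hJp, hpJ, hmuL, hmuR, hJε⟩ := HR2 ε Hm Hp C cd hPar b3 τ l r l0 r0 l1 r1 l2 r2 VL VR hpair
  obtain ⟨hviol, hReg, hsL59, hsR59, hcL13, hcR13⟩ :=
    HR3 ε Hm Hp C cd hPar b4 τ l r l0 r0 l1 r1 l2 r2 VL VR hpair
  obtain ⟨ρ, hρd⟩ : ∃ ρ : ℝ, ρ = r - l := ⟨_, rfl⟩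
  obtain ⟨x, hxd⟩ : ∃ x : ℝ, x = (l + r) / 2 := ⟨_, rfl⟩
  have hρ : 0 < ρ := by rw [hρd]; exact sub_pos.mpr hkids.lt
  have hτ : |τ| ≤ 1 := by
    rcases hkids.tt with h | h | h <;> rw [h] <;> norm_num
  have k0 := hkids.n0
  have k2' := hkids.n2
  have k1 := hkids.n1
  have kc := hkids.c1
  have ke0 := hkids.e0
  have ke2 := hkids.e2
  rw [← hρd, ← hxd] at hJp hpJ hReg hJε hQL
  rw [← hρd] at hsL59 hsR59 hcL13 hcR13 k0 k2' k1 kc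
  obtain ⟨J, hJd⟩ : ∃ J : ℝ, J = Yf cd x ρ := ⟨_, rfl⟩
  obtain ⟨p, hpd⟩ : ∃ p : ℝ, p = VR.N - VL.N := ⟨_, rfl⟩
  have hJ0 : 0 < J := by rw [hJd]; exact ((hP1 Hm Hp C cd).2.2.1 x ρ ρ hρ le_rfl).1
  rw [← hJd, ← hpd] at hJp hpJ
  rw [← hJd] at hJε
  have hpe : p ≤ 12 * ε ^ 3 := by linarith only [hpJ, hJε]
  have h59 : ε ^ (59 / 100 : ℝ) ≤ 1 / 10 ^ 6 := by
    have h1 : 0 < ε ^ (59 / 100 : ℝ) := Real.rpow_pos_of_pos hε _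
    have : 1 * ε ^ (59 / 100 : ℝ) ≤ K * ε ^ (59 / 100 : ℝ) := mul_le_mul_of_nonneg_right hK h1.le
    linarith only [this, s4]
  have hεε : ε ^ 2 ≤ 1 / 10 ^ 6 * ε := by
    have := mul_le_mul_of_nonneg_right hε1 hε.le
    linarith only [this]
  have hε2 : 0 < ε ^ 2 := by positivity
  -- normalised data
  have exn : ∀ X : ℝ, ∃ A : ℝ, X = ρ * A := fun X => ⟨X / ρ, by field_simp⟩
  have exn' : ∀ X : ℝ, ∃ A : ℝ, X = x + ρ * A := fun X => ⟨(X - x) / ρ, by field_simp; ring⟩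
  obtain ⟨A0, hA0⟩ := exn (r0 - l0)
  obtain ⟨A1, hA1⟩ := exn (r1 - l1)
  obtain ⟨A2, hA2⟩ := exn (r2 - l2)
  obtain ⟨cA, hcA⟩ := exn' ((l1 + r1) / 2)
  obtain ⟨cL, hcL⟩ := exn' VL.c
  obtain ⟨cR, hcR⟩ := exn' VR.c
  obtain ⟨cG, hcG⟩ := exn' G.c
  obtain ⟨sL, hsL⟩ := exn VL.s
  obtain ⟨sR, hsR⟩ := exn VR.s
  obtain ⟨sG, hsG⟩ := exn G.s
  have n0 := absn hρ hA0 k0
  have n2 := absn hρ hA2 k2'
  have n1 := absn hρ hA1 k1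
  have hcK3 : cK * ε ^ 3 ≤ ε ^ 2 / 1000 := by
    have := mul_le_mul_of_nonneg_right hcKε (sq_nonneg ε)
    linarith only [this]
  have hcK2 : cK * ε ^ 2 ≤ ε / 1000 := by
    have := mul_le_mul_of_nonneg_right hcKε hε.le
    linarith only [this]
  have nA : |cA - 3 / 4 * τ * ε| ≤ ε / 1000 := by
    have h1 : |ρ * cA - 3 / 4 * τ * ε * ρ| ≤ (cK * ε ^ 2) * ρ := by
      have e : ρ * cA - 3 / 4 * τ * ε * ρ = (r1 + l1) / 2 - (r + l) / 2 - 3 / 4 * τ * ε * ρ := by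
        linarith only [hcA, hxd]
      rw [e]; exact kc
    exact (absn hρ rfl h1).trans hcK2
  have a0 := childsize hε hτ hcKε n0
  have a2 : |A2 - ε| ≤ 2001 / 1000 * ε ^ 2 := by
    refine childsize hε (τ := -τ) (by rwa [abs_neg]) hcKε ?_
    have e : ε * (1 + 2 * ε * -τ) = ε * (1 - 2 * ε * τ) := by ring
    rwa [e]
  have a1 : |A1 - 4 * ε ^ 2| ≤ ε ^ 2 / 1000 := n1.trans hcK3
  have a0' := abs_le.mp a0
  have a2' := abs_le.mp a2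
  have a1' := abs_le.mp a1
  have A0p : 0 < A0 := by linarith only [a0'.1, hεε, hε]
  have A2p : 0 < A2 := by linarith only [a2'.1, hεε, hε]
  have A1p : 0 < A1 := by linarith only [a1'.1, hε2]
  have lt0 : l0 < r0 := by have := mul_pos hρ A0p; linarith only [hA0, this]
  have lt2 : l2 < r2 := by have := mul_pos hρ A2p; linarith only [hA2, this]
  have lt1 : l1 < r1 := by have := mul_pos hρ A1p; linarith only [hA1, this]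
  have m0 : (l0 + r0) / 2 = x + ρ * (-1 / 2 + A0 / 2) := by linarith only [hA0, ke0, hxd, hρd]
  have m2 : (l2 + r2) / 2 = x + ρ * (1 / 2 - A2 / 2) := by linarith only [hA2, ke2, hxd, hρd]
  obtain ⟨u1, u2, u3, u4, u5, u6⟩ := (HR0 ε VL.a VL.b l0 r0 hε b2 VL.lt lt0).2 hpair.wL
  obtain ⟨v1, v2, v3, v4, v5, v6⟩ := (HR0 ε VR.a VR.b l2 r2 hε b2 VR.lt lt2).2 hpair.wR
  obtain ⟨w1, w2, w3, w4, w5, w6⟩ := (HR0 ε G.a G.b l1 r1 hε b2 G.lt lt1).2 hG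
  obtain ⟨sL1, sL2, sL3, -⟩ := R0n hρ hA0 m0 hcL hsL u1 u4 u5 u6
  obtain ⟨sR1, sR2, sR3, -⟩ := R0n hρ hA2 m2 hcR hsR v1 v4 v5 v6
  obtain ⟨sG1, -, -, sG4⟩ := R0n hρ hA1 hcA hcG hsG w1 w4 w5 w6
  have cL0 : |cL - (-1 / 2 + A0 / 2)| ≤ 1 / 10 ^ 5 := by
    rw [m0, hcL, show x + ρ * cL - (x + ρ * (-1 / 2 + A0 / 2)) = ρ * (cL - (-1 / 2 + A0 / 2)) by ring,
      abs_mul, abs_of_pos hρ] at hcL13
    have h1 : |cL - (-1 / 2 + A0 / 2)| ≤ ε ^ (1 / 3 : ℝ) :=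
      le_of_mul_le_mul_left (by linarith only [hcL13]) hρ
    linarith only [h1, s5]
  have cR0 : |cR - (1 / 2 - A2 / 2)| ≤ 1 / 10 ^ 5 := by
    rw [m2, hcR, show x + ρ * cR - (x + ρ * (1 / 2 - A2 / 2)) = ρ * (cR - (1 / 2 - A2 / 2)) by ring,
      abs_mul, abs_of_pos hρ] at hcR13
    have h1 : |cR - (1 / 2 - A2 / 2)| ≤ ε ^ (1 / 3 : ℝ) :=
      le_of_mul_le_mul_left (by linarith only [hcR13]) hρ
    linarith only [h1, s5]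
  -- bounds for nn
  have HR4' := HR4 ε Hm Hp C cd hPar b5
  have c35 : ∀ (V : Gap cd) (c : ℝ), V.c = x + ρ * c → |c| ≤ 3 / 5 → |V.c - x| ≤ 3 / 5 * ρ := by
    intro V c h1 h2
    rw [h1, show x + ρ * c - x = ρ * c by ring, abs_mul, abs_of_pos hρ]
    have := mul_le_mul_of_nonneg_left h2 hρ.le
    linarith only [this]
  have s3' : ∀ (V : Gap cd) (s : ℝ), V.s = ρ * s → 3 * ε ^ 2 ≤ s → 3 * ε ^ 2 * ρ ≤ V.s := by
    intro V s h1 h2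
    rw [h1]
    have := mul_le_mul_of_nonneg_left h2 hρ.le
    linarith only [this]
  have cL0' := abs_le.mp cL0
  have cR0' := abs_le.mp cR0
  have hsl : ∀ A s : ℝ, ε / 2 ≤ A → (1 - 26 / 10 * ε) * A ≤ s → 3 * ε ^ 2 ≤ s := by
    intro A s h1 h2
    have h3 : (1 - 26 / 10 * ε) * (ε / 2) ≤ (1 - 26 / 10 * ε) * A :=
      mul_le_mul_of_nonneg_left h1 (by linarith only [hε1])
    linarith only [h3, h2, hεε, hε]
  have hnL := HR4' x ρ VL hρ hReg (c35 VL cL hcL (by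
      rw [abs_le]; constructor <;> linarith only [cL0'.1, cL0'.2, a0'.1, a0'.2, hεε, hε1, hε]))
    (s3' VL sL hsL (hsl _ _ (by linarith only [a0'.1, hεε, hε]) sL1)) hsL59
  have hnR := HR4' x ρ VR hρ hReg (c35 VR cR hcR (by
      rw [abs_le]; constructor <;> linarith only [cR0'.1, cR0'.2, a2'.1, a2'.2, hεε, hε1, hε]))
    (s3' VR sR hsR (hsl _ _ (by linarith only [a2'.1, hεε, hε]) sR1)) hsR59
  rw [← hJd] at hnL hnR
  obtain ⟨kL, kR, jj, hu, hmu, cL3, cR3, hap, hpa, hpdd, hd0, hd1⟩ :=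
    ends hQ4 hN0 hPar hε1 hcKε hK hK4 hτ hρ hJd hJ0 hpd hJp hpe h23 h102 h110 h110p h120 h59 hQL n0 n2 hcL hcR
      hsL hsR hsL59 hsR59 cL0 cR0 sL1 sR1 sL3 sR3 sL2 sR2 hnL hnR
  -- G
  have hA16 : (r1 - l1) / (16 * ε) ≤ 26 / 100 * ε * ρ := by
    rw [div_le_iff₀ (by positivity), hA1]
    have h1 : A1 ≤ 401 / 100 * ε ^ 2 := by linarith only [a1'.2, hε2]
    have := mul_le_mul_of_nonneg_left h1 hρ.le
    have h3 : 0 < ρ * ε ^ 2 := by positivity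
    linarith only [this, h3]
  have eGa : G.a = G.c - G.s / 2 := by simp only [Gap.c, Gap.s]; ring
  have eGb : G.b = G.c + G.s / 2 := by simp only [Gap.c, Gap.s]; ring
  have hcAa : |cA| ≤ ε := by
    have e1 : cA = (cA - 3 / 4 * τ * ε) + 3 / 4 * τ * ε := by ring
    rw [e1]
    refine (abs_add_le _ _).trans ?_
    have e2 : |3 / 4 * τ * ε| ≤ 3 / 4 * ε := by
      rw [abs_mul, abs_mul, abs_of_pos hε, abs_of_pos (by norm_num : (0:ℝ) < 3 / 4)]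
      have := mul_le_mul_of_nonneg_right hτ hε.le
      linarith only [this]
    linarith only [nA, e2, hε]
  have hcAa' := abs_le.mp hcAa
  have hcA1 := mul_le_mul_of_nonneg_left hcAa'.1 hρ.le
  have hcA2 := mul_le_mul_of_nonneg_left hcAa'.2 hρ.le
  have hερ : ε * ρ ≤ 1 / 10 ^ 6 * ρ := mul_le_mul_of_nonneg_right hε1 hρ.le
  have hmeet : G.Meets x ρ := by
    constructor
    · linarith only [w2, hA16, hcA, hcA2, hερ, hρ]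
    · linarith only [w3, hA16, hcA, hcA1, hερ, hρ]
  have hρle : ρ ≤ ε ^ (-(21 / 20) : ℝ) * ρ := by
    have : (1:ℝ) ≤ ε ^ (-(21 / 20) : ℝ) :=
      Real.one_le_rpow_of_pos_of_le_one_of_nonpos hε (by linarith only [hε1]) (by norm_num)
    have := mul_le_mul_of_nonneg_right this hρ.le
    linarith only [this]
  have hsG59 : G.s ≤ ε ^ (59 / 100 : ℝ) * ρ :=
    (HQ8 ε Hm Hp C cd hPar b1 x ρ ρ ρ hρ le_rfl le_rfl hρle hReg).2.1 G hmeet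
  have hGA : |cG - cA| ≤ sG / 2 + 26 / 100 * ε := by
    have h1 : |ρ * (cG - cA)| ≤ ρ * (sG / 2 + 26 / 100 * ε) := by
      rw [eGa, hcG, hsG, hcA] at w2
      rw [eGb, hcG, hsG, hcA] at w3
      rw [abs_le]
      constructor <;> linarith only [w2, w3, hA16]
    rw [abs_mul, abs_of_pos hρ] at h1
    exact le_of_mul_le_mul_left h1 hρ
  have hsG3 : 3 * ε ^ 2 ≤ sG := by
    have h3 : (1 - 26 / 10 * ε) * (3999 / 1000 * ε ^ 2) ≤ (1 - 26 / 10 * ε) * A1 :=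
      mul_le_mul_of_nonneg_left (by linarith only [a1'.1]) (by linarith only [hε1])
    have h4 : ε * ε ^ 2 ≤ 1 / 10 ^ 6 * ε ^ 2 := mul_le_mul_of_nonneg_right hε1 hε2.le
    linarith only [h3, h4, sG1, hε2]
  have hsG6 : sG ≤ 1 / 10 ^ 6 := by
    rw [hsG] at hsG59
    have : sG ≤ ε ^ (59 / 100 : ℝ) := le_of_mul_le_mul_left (by linarith only [hsG59]) hρ
    linarith only [this, h59]
  have hGA' := abs_le.mp hGA
  have hnG := HR4' x ρ G hρ hReg (c35 G cG hcG (by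
      rw [abs_le]; constructor <;> linarith only [hGA'.1, hGA'.2, hcAa'.1, hcAa'.2, hsG6, hε1, hε]))
    (s3' G sG hsG hsG3) hsG59
  rw [← hJd] at hnG
  exact centre hP1 hQ4 hN0 HR5 b6 hPar hε1 hK hK4 hτ hρ hReg hJd hJ0 hpd hJp hpe h102 h110 h110p h120 h59 s4 h59l hQL
    a0 a2 a1 nA hcL hcR hcG hsL hsR hsG hsL59 hsR59 hsG59 sG1 hGA sG4 hnG kL kR jj hu hmu cL3 cR3 hap hpa hpdd
    hd0 hd1

end Pool.Agent.Helper52.CV.R9
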