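import Pool.Agent.Helper36.CV.StmtsR

set_option autoImplicit false

namespace Pool.Agent.Helper52.CV.R9

open Pool.Agent.Helper36.CV

/-- smallness of powers -/
lemma small_pow (C s c : ℝ) (hs : 0 < s) (hc : 0 < c) :
    ∃ e : ℝ, 0 < e ∧ ∀ ε : ℝ, 0 < ε → ε ≤ e → C * ε ^ s ≤ c := by
  rcases le_or_gt C 0 with hC | hC
  · refine ⟨1, one_pos, fun ε h1 _ => ?_⟩
    have := Real.rpow_pos_of_pos h1 s
    nlinarith
  · refine ⟨(c / C) ^ (1 / s), Real.rpow_pos_of_pos (div_pos hc hC) _, fun ε h1 h2 => ?_⟩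
    have h3 : ε ^ s ≤ ((c / C) ^ (1 / s)) ^ s := Real.rpow_le_rpow h1.le h2 hs.le
    rw [← Real.rpow_mul (div_pos hc hC).le, one_div, inv_mul_cancel₀ hs.ne', Real.rpow_one] at h3
    calc C * ε ^ s ≤ C * (c / C) := mul_le_mul_of_nonneg_left h3 hC.le
      _ = c := by field_simp

/-- first consequence of the law -/
lemma law1 {ε a p cL cR k2 E : ℝ} (hε : 0 < ε) (hε1 : ε ≤ 1 / 10 ^ 6) (ha : 0 < a) (hp : 0 < p)
    (hk2 : |k2| ≤ 9 * ε) (hd1 : 99 / 100 ≤ cR - cL) (hd2 : cR - cL ≤ 101 / 100) (hsum : |cL + cR| ≤ 1 / 5000)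
    (hE : E ≤ ε / 1000 * a + 3 * (ε / 1000) * p)
    (h : |p - a * ((cR - cL) + k2 / 2 * (cR ^ 2 - cL ^ 2))| ≤ E) :
    |p - a * (cR - cL)| ≤ 6 * (ε / 1000) * a ∧ p ≤ 102 / 100 * a := by
  have h1 : |k2 / 2 * (cR ^ 2 - cL ^ 2)| ≤ ε / 1000 := by
    have e1 : k2 / 2 * (cR ^ 2 - cL ^ 2) = k2 * ((cR - cL) * (cL + cR)) / 2 := by ring
    rw [e1, abs_div, abs_mul, abs_mul, abs_of_pos (by norm_num : (0:ℝ) < 2),
      abs_of_nonneg (by linarith : 0 ≤ cR - cL)]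
    have h2 : (cR - cL) * |cL + cR| ≤ 101 / 100 * (1 / 5000) :=
      mul_le_mul hd2 hsum (abs_nonneg _) (by norm_num)
    have h3 : |k2| * ((cR - cL) * |cL + cR|) ≤ 9 * ε * (101 / 100 * (1 / 5000)) :=
      mul_le_mul hk2 h2 (mul_nonneg (by linarith) (abs_nonneg _)) (by positivity)
    linarith
  have h4 : |p - a * (cR - cL)| ≤ E + a * (ε / 1000) := by
    have e2 : p - a * (cR - cL) = (p - a * ((cR - cL) + k2 / 2 * (cR ^ 2 - cL ^ 2))) +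
        a * (k2 / 2 * (cR ^ 2 - cL ^ 2)) := by ring
    rw [e2]
    refine (abs_add_le _ _).trans (add_le_add h ?_)
    rw [abs_mul, abs_of_pos ha]
    exact mul_le_mul_of_nonneg_left h1 ha.le
  have h6 : ε / 1000 * p ≤ 1 / 10 ^ 9 * p :=
    mul_le_mul_of_nonneg_right (by linarith) hp.le
  have h7 : ε / 1000 * a ≤ 1 / 10 ^ 9 * a :=
    mul_le_mul_of_nonneg_right (by linarith) ha.le
  have h8 : a * (cR - cL) ≤ a * (101 / 100) := mul_le_mul_of_nonneg_left hd2 ha.le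
  have h9 : p ≤ 102 / 100 * a := by
    have := (abs_le.mp h4).2
    linarith
  refine ⟨?_, h9⟩
  have h10 : ε / 1000 * p ≤ ε / 1000 * (102 / 100 * a) := mul_le_mul_of_nonneg_left h9 (by positivity)
  have h11 : 0 < ε / 1000 * a := by positivity
  linarith

/-- bound for the second label times the size -/
lemma mub {ε a p d k sz m E : ℝ} (hε : 0 < ε) (hε1 : ε ≤ 1 / 10 ^ 6) (ha : 0 < a) (_hp : 0 < p)
    (hpa : p ≤ 102 / 100 * a) (hpd : p ≤ a * (d + 6 * (ε / 1000))) (hd : 0 ≤ d)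
    (hk : a * (1 - 10 * ε) ≤ k + E) (hE : E ≤ 2 * (ε / 1000) * p) (hm : 0 ≤ m) (hsz : 0 < sz)
    (hmk : m * k * sz ≤ ε / 2 * (1 + 98 * ε)) :
    a * (1 - 11 * ε) ≤ k ∧ m * sz * p ≤ ε / 2 * (1 + 110 * ε) * (d + 6 * (ε / 1000)) := by
  have h1 : ε / 1000 * p ≤ ε / 1000 * (102 / 100 * a) := mul_le_mul_of_nonneg_left hpa (by positivity)
  have h11 : 0 < ε * a := by positivity
  have h2 : a * (1 - 11 * ε) ≤ k := by linarith
  refine ⟨h2, ?_⟩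
  have hD : 0 < d + 6 * (ε / 1000) := by linarith
  have h3 : (m * sz) * (a * (1 - 11 * ε)) ≤ ε / 2 * (1 + 98 * ε) := by
    refine (mul_le_mul_of_nonneg_left h2 (by positivity)).trans ?_
    linarith [hmk, (by ring : m * sz * k = m * k * sz)]
  have h4 : 0 < 1 - 11 * ε := by linarith
  have h5 : (m * sz * p) * (1 - 11 * ε) ≤ (ε / 2 * (1 + 98 * ε)) * (d + 6 * (ε / 1000)) := by
    calc (m * sz * p) * (1 - 11 * ε) ≤ (m * sz * (a * (d + 6 * (ε / 1000)))) * (1 - 11 * ε) := by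
          apply mul_le_mul_of_nonneg_right _ h4.le
          exact mul_le_mul_of_nonneg_left hpd (by positivity)
      _ = ((m * sz) * (a * (1 - 11 * ε))) * (d + 6 * (ε / 1000)) := by ring
      _ ≤ _ := mul_le_mul_of_nonneg_right h3 hD.le
  have h6 : (ε / 2 * (1 + 98 * ε)) * (d + 6 * (ε / 1000)) ≤
      (ε / 2 * (1 + 110 * ε) * (d + 6 * (ε / 1000))) * (1 - 11 * ε) := by
    have e1 : 1 + 98 * ε ≤ (1 + 110 * ε) * (1 - 11 * ε) := by nlinarith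
    have e2 : 0 ≤ ε / 2 * (d + 6 * (ε / 1000)) := by positivity
    have e3 := mul_le_mul_of_nonneg_left e1 e2
    linarith [e3, (by ring : ε / 2 * (d + 6 * (ε / 1000)) * (1 + 98 * ε) =
      (ε / 2 * (1 + 98 * ε)) * (d + 6 * (ε / 1000))), (by ring : ε / 2 * (d + 6 * (ε / 1000)) *
      ((1 + 110 * ε) * (1 - 11 * ε)) = (ε / 2 * (1 + 110 * ε) * (d + 6 * (ε / 1000))) * (1 - 11 * ε))]
  exact le_of_mul_le_mul_right (h5.trans h6) h4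

/-- bound for the second label -/
lemma mup {ε D1 sz m p : ℝ} (hε : 0 < ε) (hε1 : ε ≤ 1 / 10 ^ 6) (hD : 0 < D1) (hm : 0 ≤ m) (hp : 0 < p)
    (hsz : ε * (1 - 5 * ε) ≤ sz) (h : m * sz * p ≤ ε / 2 * (1 + 110 * ε) * D1) :
    m * p ≤ (1 + 116 * ε) * D1 / 2 := by
  have h4 : 0 < ε * (1 - 5 * ε) := mul_pos hε (by linarith)
  have h1 : (m * p) * (ε * (1 - 5 * ε)) ≤ ε / 2 * (1 + 110 * ε) * D1 := by
    refine (mul_le_mul_of_nonneg_left hsz (by positivity)).trans ?_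
    linarith [(by ring : m * p * sz = m * sz * p)]
  have h2 : ε / 2 * (1 + 110 * ε) * D1 ≤ ((1 + 116 * ε) * D1 / 2) * (ε * (1 - 5 * ε)) := by
    have e1 : 1 + 110 * ε ≤ (1 + 116 * ε) * (1 - 5 * ε) := by nlinarith
    have e2 : 0 ≤ ε / 2 * D1 := by positivity
    have e3 := mul_le_mul_of_nonneg_left e1 e2
    linarith [e3, (by ring : ε / 2 * D1 * (1 + 110 * ε) = ε / 2 * (1 + 110 * ε) * D1),
      (by ring : ε / 2 * D1 * ((1 + 116 * ε) * (1 - 5 * ε)) = ((1 + 116 * ε) * D1 / 2) * (ε * (1 - 5 * ε)))]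
  exact le_of_mul_le_mul_right (h1.trans h2) h4

/-- size bound, first pass -/
lemma size1 {ε D1 s1 m1 m2 p : ℝ} (hε : 0 < ε) (hε1 : ε ≤ 1 / 10 ^ 6) (hD : 0 < D1) (hD1 : D1 ≤ 1011 / 1000)
    (hp : 0 < p) (hpε : p ≤ ε) (hs : 0 < s1)
    (h2 : m2 * p ≤ (1 + 116 * ε) * D1 / 2) (h12 : 1 - p ^ 2 ≤ m1 * p + m2 * p)
    (h1 : m1 * s1 * p ≤ ε / 2 * (1 + 110 * ε) * D1) : s1 ≤ 103 / 100 * ε := by
  have e0 : 116 * ε * D1 ≤ 116 / 10 ^ 6 * (1011 / 1000) :=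
    mul_le_mul (by linarith) hD1 hD.le (by norm_num)
  have e1 : (1 + 116 * ε) * D1 ≤ 10112 / 10000 := by nlinarith
  have e2 : p ^ 2 ≤ 1 / 10 ^ 6 := by nlinarith
  have e3 : 494 / 1000 ≤ m1 * p := by linarith
  have e4 : s1 * (494 / 1000) ≤ s1 * (m1 * p) := mul_le_mul_of_nonneg_left e3 hs.le
  have e5 : 110 * ε * D1 ≤ 110 / 10 ^ 6 * (1011 / 1000) :=
    mul_le_mul (by linarith) hD1 hD.le (by norm_num)
  have e6 : (1 + 110 * ε) * D1 ≤ 10112 / 10000 := by nlinarith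
  have e7 : ε / 2 * ((1 + 110 * ε) * D1) ≤ ε / 2 * (10112 / 10000) :=
    mul_le_mul_of_nonneg_left e6 (by positivity)
  have e8 : s1 * (m1 * p) = m1 * s1 * p := by ring
  have e9 : ε / 2 * ((1 + 110 * ε) * D1) = ε / 2 * (1 + 110 * ε) * D1 := by ring
  linarith

/-- size bound, second pass -/
lemma size2 {ε D1 s1 m1 m2 p : ℝ} (hε : 0 < ε) (hε1 : ε ≤ 1 / 10 ^ 6) (hD : 0 < D1) (hD1 : D1 ≤ 1)
    (hp : 0 < p) (hpε : p ≤ ε) (hs : 0 < s1)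
    (h2 : m2 * p ≤ (1 + 116 * ε) * D1 / 2) (h12 : 1 - p ^ 2 ≤ m1 * p + m2 * p)
    (h1 : m1 * s1 * p ≤ ε / 2 * (1 + 110 * ε) * D1) : s1 ≤ ε * (1 + 240 * ε) := by
  have e1 : (1 + 116 * ε) * D1 ≤ 1 + 116 * ε := by nlinarith
  have e2 : p ^ 2 ≤ ε ^ 2 := by nlinarith
  have e3 : 1 / 2 - 58 * ε - ε ^ 2 ≤ m1 * p := by linarith
  have e4 : s1 * (1 / 2 - 58 * ε - ε ^ 2) ≤ s1 * (m1 * p) := mul_le_mul_of_nonneg_left e3 hs.le
  have e6 : (1 + 110 * ε) * D1 ≤ 1 + 110 * ε := by nlinarith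
  have e7 : ε / 2 * ((1 + 110 * ε) * D1) ≤ ε / 2 * (1 + 110 * ε) :=
    mul_le_mul_of_nonneg_left e6 (by positivity)
  have e8 : s1 * (m1 * p) = m1 * s1 * p := by ring
  have e9 : ε / 2 * ((1 + 110 * ε) * D1) = ε / 2 * (1 + 110 * ε) * D1 := by ring
  have e10 : s1 * (1 / 2 - 58 * ε - ε ^ 2) ≤ ε / 2 * (1 + 110 * ε) := by linarith
  have e11 : (1 + 110 * ε) / 2 ≤ (1 + 240 * ε) * (1 / 2 - 58 * ε - ε ^ 2) := by nlinarith [mul_pos hε hε, mul_pos (mul_pos hε hε) hε]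
  have e12 : 0 < 1 / 2 - 58 * ε - ε ^ 2 := by nlinarith
  have e13 : ε / 2 * (1 + 110 * ε) ≤ (ε * (1 + 240 * ε)) * (1 / 2 - 58 * ε - ε ^ 2) := by
    have := mul_le_mul_of_nonneg_left e11 hε.le
    linarith [(by ring : ε * ((1 + 110 * ε) / 2) = ε / 2 * (1 + 110 * ε)),
      (by ring : ε * ((1 + 240 * ε) * (1 / 2 - 58 * ε - ε ^ 2)) = (ε * (1 + 240 * ε)) * (1 / 2 - 58 * ε - ε ^ 2))]
  exact le_of_mul_le_mul_right (e10.trans e13) e12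

end Pool.Agent.Helper52.CV.R9
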