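import Pool.Agent.Helper52.CV.R9a

set_option autoImplicit false

namespace Pool.Agent.Helper52.CV.R9

open Pool.Agent.Helper36.CV

lemma childsize {ε cK τ A : ℝ} (hε : 0 < ε) (hτ : |τ| ≤ 1) (hcK : cK * ε ≤ 1 / 1000)
    (hA : |A - ε * (1 + 2 * ε * τ)| ≤ cK * ε ^ 3) : |A - ε| ≤ 2001 / 1000 * ε ^ 2 := by
  have h1 : cK * ε ^ 3 ≤ 1 / 1000 * ε ^ 2 := by
    have := mul_le_mul_of_nonneg_right hcK (sq_nonneg ε)
    linarith [(by ring : cK * ε * ε ^ 2 = cK * ε ^ 3)]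
  have h2 : A - ε = (A - ε * (1 + 2 * ε * τ)) + 2 * ε ^ 2 * τ := by ring
  rw [h2]
  refine (abs_add_le _ _).trans ?_
  have h3 : |2 * ε ^ 2 * τ| ≤ 2 * ε ^ 2 := by
    rw [abs_mul, abs_of_pos (by positivity : 0 < 2 * ε ^ 2)]
    have := mul_le_mul_of_nonneg_left hτ (by positivity : 0 ≤ 2 * ε ^ 2)
    linarith
  linarith

lemma partLR {ε cK τ A0 A2 cL cR sL sR kL kR mL mR k2 a p e23 EL ER : ℝ} {z : ℤ}
    (hε : 0 < ε) (hε1 : ε ≤ 1 / 10 ^ 6) (hcK : cK * ε ≤ 1 / 1000) (hτ : |τ| ≤ 1)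
    (hA0 : |A0 - ε * (1 + 2 * ε * τ)| ≤ cK * ε ^ 3) (hA2 : |A2 - ε * (1 - 2 * ε * τ)| ≤ cK * ε ^ 3)
    (cL0 : |cL - (-1 / 2 + A0 / 2)| ≤ 1 / 10 ^ 5) (cR0 : |cR - (1 / 2 - A2 / 2)| ≤ 1 / 10 ^ 5)
    (sL1 : (1 - 26 / 10 * ε) * A0 ≤ sL) (sR1 : (1 - 26 / 10 * ε) * A2 ≤ sR)
    (sL3 : sL < 21 / 20 * A0 → |cL - (-1 / 2 + A0 / 2)| ≤ (sL - A0) / 2 + A0 / 10)
    (sR3 : sR < 21 / 20 * A2 → |cR - (1 / 2 - A2 / 2)| ≤ (sR - A2) / 2 + A2 / 10)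
    (sL2 : sL < (1 + 30 * e23) * A0 → |cL - (-1 / 2 + A0 / 2)| ≤ (sL - A0) / 2 + 13 / 10 * ε * A0)
    (sR2 : sR < (1 + 30 * e23) * A2 → |cR - (1 / 2 - A2 / 2)| ≤ (sR - A2) / 2 + 13 / 10 * ε * A2)
    (h23 : 10 ^ 5 * ε ≤ e23) (hk2 : |k2| ≤ 9 * ε) (ha : 0 < a) (hp : 0 < p) (hpe : p ≤ 12 * ε ^ 3)
    (hlaw : |p - a * ((cR - cL) + k2 / 2 * (cR ^ 2 - cL ^ 2))| ≤ ε / 1000 * a + 3 * (ε / 1000) * p)
    (hkL : a * (1 - 10 * ε) ≤ kL + EL) (hEL : EL ≤ 2 * (ε / 1000) * p)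
    (hkR : a * (1 - 10 * ε) ≤ kR + ER) (hER : ER ≤ 2 * (ε / 1000) * p)
    (hmL : |mL| * kL * sL ≤ ε / 2 * (1 + 98 * ε)) (hmR : |mR| * kR * sR ≤ ε / 2 * (1 + 98 * ε))
    (hz : (z : ℝ) = p * (p - mR + mL)) (hz0 : z ≠ 0) :
    |z| = 1 ∧ p * |mL + mR| ≤ 117 * ε ∧ |cL - (-1 / 2 + A0 / 2)| ≤ 130 * ε ^ 2 ∧
    |cR - (1 / 2 - A2 / 2)| ≤ 130 * ε ^ 2 ∧ a ≤ p * (1 + 2 * ε) ∧ p ≤ 102 / 100 * a ∧
    p ≤ a * ((cR - cL) + 6 * (ε / 1000)) ∧ 0 ≤ cR - cL ∧ (cR - cL) + 6 * (ε / 1000) ≤ 1 := by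
  have hA0' := abs_le.mp (childsize hε hτ hcK hA0)
  have hA2' : |A2 - ε| ≤ 2001 / 1000 * ε ^ 2 := by
    refine childsize hε (τ := -τ) (by rwa [abs_neg]) hcK ?_
    have e : ε * (1 + 2 * ε * -τ) = ε * (1 - 2 * ε * τ) := by ring
    rwa [e]
  have hA2'' := abs_le.mp hA2'
  have hεε : ε ^ 2 ≤ 1 / 10 ^ 6 * ε := by
    have := mul_le_mul_of_nonneg_right hε1 hε.le
    linarith only [this]
  have hε3 : ε ^ 3 ≤ 1 / 10 ^ 12 * ε := by
    have := mul_le_mul_of_nonneg_left hεε hε.le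
    linarith only [this, hεε]
  have hA0l : ε * (1 - 2001 / 1000 * ε) ≤ A0 := by linarith only [hA0'.1]
  have hA2l : ε * (1 - 2001 / 1000 * ε) ≤ A2 := by linarith only [hA2''.1]
  have hA0p : 0 < A0 := by linarith only [hA0'.1, hεε, hε]
  have hA2p : 0 < A2 := by linarith only [hA2''.1, hεε, hε]
  have hsl : ∀ A s : ℝ, ε * (1 - 2001 / 1000 * ε) ≤ A → (1 - 26 / 10 * ε) * A ≤ s → ε * (1 - 5 * ε) ≤ s := by
    intro A s h1 h2
    have h3 : (1 - 26 / 10 * ε) * (ε * (1 - 2001 / 1000 * ε)) ≤ (1 - 26 / 10 * ε) * A :=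
      mul_le_mul_of_nonneg_left h1 (by linarith)
    have h4 : 1 - 5 * ε ≤ (1 - 26 / 10 * ε) * (1 - 2001 / 1000 * ε) := by
      linarith only [hε, sq_nonneg ε]
    have h5 := mul_le_mul_of_nonneg_left h4 hε.le
    linarith only [h3, h5, h2]
  have hsL := hsl _ _ hA0l sL1
  have hsR := hsl _ _ hA2l sR1
  have hpos5 : 0 < ε * (1 - 5 * ε) := mul_pos hε (by linarith)
  have hsLp : 0 < sL := lt_of_lt_of_le hpos5 hsL
  have hsRp : 0 < sR := lt_of_lt_of_le hpos5 hsR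
  have cL0' := abs_le.mp cL0
  have cR0' := abs_le.mp cR0
  have hd1 : 99 / 100 ≤ cR - cL := by linarith only [cL0'.2, cR0'.1, hA0'.2, hA2''.2, hεε, hε1, hε]
  have hd2 : cR - cL ≤ 101 / 100 := by linarith only [cL0'.1, cR0'.2, hA0p, hA2p]
  have hsum : |cL + cR| ≤ 1 / 5000 := by
    rw [abs_le]
    constructor <;> linarith only [cL0'.1, cR0'.2, cL0'.2, cR0'.1, hA0'.1, hA0'.2, hA2''.1, hA2''.2, hεε, hε1, hε]
  obtain ⟨hlw, hpa⟩ := law1 hε hε1 ha hp hk2 hd1 hd2 hsum le_rfl hlaw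
  have hlw' := abs_le.mp hlw
  have hpd : p ≤ a * ((cR - cL) + 6 * (ε / 1000)) := by linarith only [hlw'.2]
  have hd0 : 0 ≤ cR - cL := by linarith only [hd1]
  obtain ⟨_, hmL'⟩ := mub hε hε1 ha hp hpa hpd hd0 hkL hEL (abs_nonneg mL) hsLp hmL
  obtain ⟨_, hmR'⟩ := mub hε hε1 ha hp hpa hpd hd0 hkR hER (abs_nonneg mR) hsRp hmR
  have hD : 0 < (cR - cL) + 6 * (ε / 1000) := by linarith only [hd1, hε]
  have hD1 : (cR - cL) + 6 * (ε / 1000) ≤ 1011 / 1000 := by linarith only [hd2, hε1]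
  have hmLp := mup hε hε1 hD (abs_nonneg mL) hp hsL hmL'
  have hmRp := mup hε hε1 hD (abs_nonneg mR) hp hsR hmR'
  have hpε : p ≤ ε := by linarith only [hpe, hε3, hε]
  have hp2 : p ^ 2 ≤ 1 / 10 ^ 6 * ε := (pow_le_pow_left₀ hp.le hpε 2).trans hεε
  have habs : |(z : ℝ)| ≤ p ^ 2 + |mL| * p + |mR| * p := by
    rw [hz, abs_mul, abs_of_pos hp]
    have : |p - mR + mL| ≤ p + |mR| + |mL| := by
      refine (abs_add_le _ _).trans (add_le_add ((abs_sub _ _).trans ?_) le_rfl)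
      rw [abs_of_pos hp]
    have := mul_le_mul_of_nonneg_left this hp.le
    linarith only [this]
  have hz1 : |z| = 1 := by
    have e1 : |(z : ℝ)| < 2 := by
      have e2 : (1 + 116 * ε) * ((cR - cL) + 6 * (ε / 1000)) ≤ (1 + 116 / 10 ^ 6) * (1011 / 1000) :=
        mul_le_mul (by linarith only [hε1]) hD1 hD.le (by norm_num)
      linarith only [e2, habs, hmLp, hmRp, hp2, hε1]
    have e3 : |z| < 2 := by
      have : ((|z| : ℤ) : ℝ) < 2 := by rw [Int.cast_abs]; exact e1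
      exact_mod_cast this
    have e4 : 0 < |z| := abs_pos.mpr hz0
    omega
  have hzr : |(z : ℝ)| = 1 := by rw [← Int.cast_abs, hz1]; simp
  have h12 : 1 - p ^ 2 ≤ |mL| * p + |mR| * p := by linarith only [hzr, habs]
  have h12' : 1 - p ^ 2 ≤ |mR| * p + |mL| * p := by linarith only [h12]
  have hsL4 := size1 hε hε1 hD hD1 hp hpε hsLp hmRp h12 hmL'
  have hsR4 := size1 hε hε1 hD hD1 hp hpε hsRp hmLp h12' hmR'
  have cL1 := abs_le.mp (sL3 (by linarith only [hA0'.1, hsL4, hεε, hε]))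
  have cR1 := abs_le.mp (sR3 (by linarith only [hA2''.1, hsR4, hεε, hε]))
  have hD2 : (cR - cL) + 6 * (ε / 1000) ≤ 1 := by
    linarith only [cL1.1, cR1.2, hA0'.1, hA2''.1, hA0'.2, hA2''.2, hsL4, hsR4, hεε, hε]
  have hsL5 := size2 hε hε1 hD hD2 hp hpε hsLp hmRp h12 hmL'
  have hsR5 := size2 hε hε1 hD hD2 hp hpε hsRp hmLp h12' hmR'
  have hs30 : ∀ A : ℝ, ε * (1 - 2001 / 1000 * ε) ≤ A → ε * (1 + 240 * ε) < (1 + 30 * e23) * A := by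
    intro A hA
    have e1 : (1 + 30 * (10 ^ 5 * ε)) * (ε * (1 - 2001 / 1000 * ε)) ≤ (1 + 30 * e23) * A :=
      mul_le_mul (by linarith only [h23]) hA (mul_pos hε (by linarith only [hε1, hε])).le (by linarith only [h23, hε])
    have e2 : 1 + 240 * ε < (1 + 30 * (10 ^ 5 * ε)) * (1 - 2001 / 1000 * ε) := by
      linarith only [hεε, hε]
    have e3 := mul_lt_mul_of_pos_left e2 hε
    linarith only [e1, e3]
  have cL2 := sL2 (lt_of_le_of_lt hsL5 (hs30 _ hA0l))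
  have cR2 := sR2 (lt_of_le_of_lt hsR5 (hs30 _ hA2l))
  have fin : ∀ A s : ℝ, |A - ε| ≤ 2001 / 1000 * ε ^ 2 → s ≤ ε * (1 + 240 * ε) →
      (s - A) / 2 + 13 / 10 * ε * A ≤ 130 * ε ^ 2 := by
    intro A s h1 h2
    have h1' := abs_le.mp h1
    have h3 : ε * A ≤ ε * (ε + 2001 / 1000 * ε ^ 2) := mul_le_mul_of_nonneg_left (by linarith only [h1'.2]) hε.le
    have h4 : ε * (ε + 2001 / 1000 * ε ^ 2) ≤ 11 / 10 * ε ^ 2 := by
      have := mul_le_mul_of_nonneg_left hεε hε.le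
      linarith only [this, sq_nonneg ε]
    linarith only [h1'.1, h2, h3, h4, sq_nonneg ε]
  have cL3 : |cL - (-1 / 2 + A0 / 2)| ≤ 130 * ε ^ 2 := cL2.trans (fin _ _ (abs_le.mpr hA0') hsL5)
  have cR3 : |cR - (1 / 2 - A2 / 2)| ≤ 130 * ε ^ 2 := cR2.trans (fin _ _ hA2' hsR5)
  refine ⟨hz1, ?_, cL3, cR3, ?_, hpa, hpd, hd0, hD2⟩
  · -- sum of the second labels
    have hL1 : (1 + 116 * ε) * ((cR - cL) + 6 * (ε / 1000)) ≤ 1 + 116 * ε :=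
      mul_le_of_le_one_right (by linarith only [hε]) hD2
    have hL : |mL| * p ≤ (1 + 116 * ε) / 2 := by linarith only [hL1, hmLp]
    have hR : |mR| * p ≤ (1 + 116 * ε) / 2 := by linarith only [hL1, hmRp]
    have hz2 : (z : ℝ) ^ 2 = 1 := by rw [← sq_abs, hzr]; norm_num
    have e1 : p * |mL + mR| = |(z : ℝ) * (p * mL + p * mR)| := by
      rw [abs_mul, hzr, one_mul, ← mul_add, abs_mul, abs_of_pos hp]
    have e2 : |(z : ℝ) * (p * mL)| ≤ (1 + 116 * ε) / 2 := by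
      rw [abs_mul, hzr, one_mul, abs_mul, abs_of_pos hp]; linarith only [hL]
    have e3 : |(z : ℝ) * (p * mR)| ≤ (1 + 116 * ε) / 2 := by
      rw [abs_mul, hzr, one_mul, abs_mul, abs_of_pos hp]; linarith only [hR]
    have e4 : (z : ℝ) * (p * mL) - (z : ℝ) * (p * mR) = 1 - (z : ℝ) * p ^ 2 := by
      have : (z : ℝ) * z = z * (p * (p - mR + mL)) := by rw [← hz]
      linarith only [this, hz2]
    have e5 : |(z : ℝ) * p ^ 2| ≤ 1 / 10 ^ 6 * ε := by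
      rw [abs_mul, hzr, one_mul, abs_of_pos (by positivity)]; exact hp2
    have e2' := abs_le.mp e2
    have e3' := abs_le.mp e3
    have e5' := abs_le.mp e5
    rw [e1, mul_add, abs_le]
    constructor <;> linarith only [e2'.1, e2'.2, e3'.1, e3'.2, e5'.1, e5'.2, e4, hε]
  · have cL3' := abs_le.mp cL3
    have cR3' := abs_le.mp cR3
    have h1 : 1 - 11 / 10 * ε ≤ (cR - cL) - 6 * (ε / 1000) := by
      linarith only [hA0'.2, hA2''.2, cL3'.2, cR3'.1, hεε, hε]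
    have h2 : a * (1 - 11 / 10 * ε) ≤ p := by
      have := mul_le_mul_of_nonneg_left h1 ha.le
      linarith only [hlw'.1, this]
    have h3 : 1 ≤ (1 - 11 / 10 * ε) * (1 + 2 * ε) := by linarith only [hεε, hε]
    have h4 := mul_le_mul_of_nonneg_left h3 ha.le
    have h5 := mul_le_mul_of_nonneg_right h2 (by linarith only [hε] : 0 ≤ 1 + 2 * ε)
    linarith only [h4, h5]

end Pool.Agent.Helper52.CV.R9
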