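import Pool.Agent.Helper52.CV.R9b

set_option autoImplicit false

namespace Pool.Agent.Helper52.CV.R9

open Pool.Agent.Helper36.CV

/-- normalised form of R0 -/
lemma R0n {ε a b l r x ρ A m c s e23 : ℝ} (hρ : 0 < ρ) (h1 : r - l = ρ * A) (h2 : (l + r) / 2 = x + ρ * m)
    (h3 : (a + b) / 2 = x + ρ * c) (h4 : b - a = ρ * s)
    (H1 : (1 - 26 / 10 * ε) * (r - l) ≤ b - a)
    (H2 : b - a < (1 + 30 * e23) * (r - l) →
      |(a + b) / 2 - (l + r) / 2| ≤ ((b - a) - (r - l)) / 2 + 13 / 10 * ε * (r - l))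
    (H3 : b - a < 21 / 20 * (r - l) →
      |(a + b) / 2 - (l + r) / 2| ≤ ((b - a) - (r - l)) / 2 + (r - l) / 10)
    (H4 : |(a + b) / 2 - (l + r) / 2| ≤ (b - a) / 2 - 2 / 5 * (r - l) ∨
      (21 / 20 * (r - l) ≤ b - a ∧ |(a + b) / 2 - (l + r) / 2| ≤ (b - a) / 2 + (r - l) / 2) ∨
      (21 / 20 * (r - l) ≤ b - a ∧ (b - a) / 2 < |(l + r) / 2 - (a + b) / 2| ∧
        8 * ε * |(l + r) / 2 - (a + b) / 2| * (((l + r) / 2 - (a + b) / 2) ^ 2 - ((b - a) / 2) ^ 2) ≤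
        (r - l) * ((b - a) / 2) ^ 2)) :
    (1 - 26 / 10 * ε) * A ≤ s ∧
    (s < (1 + 30 * e23) * A → |c - m| ≤ (s - A) / 2 + 13 / 10 * ε * A) ∧
    (s < 21 / 20 * A → |c - m| ≤ (s - A) / 2 + A / 10) ∧
    (|c - m| ≤ s / 2 - 2 / 5 * A ∨ (21 / 20 * A ≤ s ∧ |c - m| ≤ s / 2 + A / 2) ∨
      (21 / 20 * A ≤ s ∧ s / 2 < |c - m| ∧
        8 * ε * |c - m| * (|c - m| ^ 2 - (s / 2) ^ 2) ≤ A * (s / 2) ^ 2)) := by
  have e1 : |(a + b) / 2 - (l + r) / 2| = ρ * |c - m| := by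
    rw [h2, h3, show x + ρ * c - (x + ρ * m) = ρ * (c - m) by ring, abs_mul, abs_of_pos hρ]
  have e2 : |(l + r) / 2 - (a + b) / 2| = ρ * |c - m| := by rw [abs_sub_comm, e1]
  have e3 : ((l + r) / 2 - (a + b) / 2) ^ 2 = (ρ * |c - m|) ^ 2 := by rw [← e2, sq_abs]
  rw [e1, h1, h4] at H2 H3
  rw [e1, e2, e3, h1, h4] at H4
  rw [h1, h4] at H1
  refine ⟨?_, ?_, ?_, ?_⟩
  · exact le_of_mul_le_mul_left (by linarith only [H1]) hρ
  · intro h
    have h' := H2 (by have := mul_lt_mul_of_pos_left h hρ; linarith only [this])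
    exact le_of_mul_le_mul_left (by linarith only [h']) hρ
  · intro h
    have h' := H3 (by have := mul_lt_mul_of_pos_left h hρ; linarith only [this])
    exact le_of_mul_le_mul_left (by linarith only [h']) hρ
  · rcases H4 with h | ⟨h, h'⟩ | ⟨h, h', h''⟩
    · left
      exact le_of_mul_le_mul_left (by linarith only [h]) hρ
    · right; left
      exact ⟨le_of_mul_le_mul_left (by linarith only [h]) hρ, le_of_mul_le_mul_left (by linarith only [h']) hρ⟩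
    · right; right
      refine ⟨le_of_mul_le_mul_left (by linarith only [h]) hρ, lt_of_mul_lt_mul_left (by linarith only [h']) hρ.le, ?_⟩
      have h3 : 0 < ρ ^ 3 := by positivity
      refine le_of_mul_le_mul_left ?_ h3
      calc ρ ^ 3 * (8 * ε * |c - m| * (|c - m| ^ 2 - (s / 2) ^ 2))
          = 8 * ε * (ρ * |c - m|) * ((ρ * |c - m|) ^ 2 - (ρ * s / 2) ^ 2) := by ring
        _ ≤ ρ * A * (ρ * s / 2) ^ 2 := h''
        _ = ρ ^ 3 * (A * (s / 2) ^ 2) := by ring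

lemma deltaG {ε A s δ : ℝ} (hε : 0 < ε) (hε1 : ε ≤ 1 / 10 ^ 6) (hA : 0 < A) (hA1 : A ≤ 41 / 10 * ε ^ 2)
    (hs : 399 / 100 * ε ^ 2 ≤ s) (hδ : 0 ≤ δ)
    (h : δ ≤ s / 2 - 2 / 5 * A ∨ (21 / 20 * A ≤ s ∧ δ ≤ s / 2 + A / 2) ∨
      (21 / 20 * A ≤ s ∧ s / 2 < δ ∧ 8 * ε * δ * (δ ^ 2 - (s / 2) ^ 2) ≤ A * (s / 2) ^ 2)) :
    40 * ε * δ ≤ s := by
  have hs0 : 0 < s := lt_of_lt_of_le (by positivity) hs
  have key : ∀ d : ℝ, d ≤ s → 40 * ε * d ≤ s := by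
    intro d hd
    have h1 : 40 * ε * d ≤ 40 * ε * s := mul_le_mul_of_nonneg_left hd (by positivity)
    have h2 : 40 * ε * s ≤ 1 * s := mul_le_mul_of_nonneg_right (by linarith only [hε1]) hs0.le
    linarith only [h1, h2]
  rcases h with h | ⟨h, h'⟩ | ⟨h, h', h''⟩
  · exact key _ (by linarith only [h, hA, hs0])
  · exact key _ (by linarith only [h, h', hs0])
  · by_contra hcon
    push Not at hcon
    have hδ0 : 0 < δ := lt_trans (by positivity) h'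
    have a1 : s / 2 < 20 * ε * δ := by linarith only [hcon]
    have hh : 0 < s / 2 := by positivity
    have a2 : (s / 2) ^ 2 ≤ 400 * ε ^ 2 * δ ^ 2 := by
      have := pow_le_pow_left₀ hh.le a1.le 2
      linarith only [this]
    have a3 : 4 * ε * δ ^ 3 ≤ A * (s / 2) ^ 2 := by
      have b1 : 8 * ε * δ * (s / 2) ^ 2 ≤ 8 * ε * δ * (400 * ε ^ 2 * δ ^ 2) :=
        mul_le_mul_of_nonneg_left a2 (by positivity)
      have b2 : 3200 * ε ^ 2 ≤ 4 := by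
        have : ε ^ 2 ≤ (1 / 10 ^ 6) ^ 2 := pow_le_pow_left₀ hε.le hε1 2
        linarith only [this]
      have b3 : 3200 * ε ^ 2 * (ε * δ ^ 3) ≤ 4 * (ε * δ ^ 3) := mul_le_mul_of_nonneg_right b2 (by positivity)
      linarith only [b1, b3, h'']
    have a4 : A * (s / 2) ^ 2 ≤ 41 / 10 * ε ^ 2 * (s / 2 * (20 * ε * δ)) := by
      have c1 : (s / 2) ^ 2 ≤ s / 2 * (20 * ε * δ) := by
        rw [sq]; exact mul_le_mul_of_nonneg_left a1.le hh.le
      exact mul_le_mul hA1 c1 (by positivity) (by positivity)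
    have a5 : 4 * δ ^ 2 ≤ 82 * ε ^ 2 * (s / 2) := by
      have hp : 0 < ε * δ := by positivity
      refine le_of_mul_le_mul_right ?_ hp
      linarith only [a3, a4]
    have a6 : (s / 2) * (s / 2) ≤ (8200 * ε ^ 4) * (s / 2) := by
      have c2 : 100 * ε ^ 2 * (4 * δ ^ 2) ≤ 100 * ε ^ 2 * (82 * ε ^ 2 * (s / 2)) :=
        mul_le_mul_of_nonneg_left a5 (by positivity)
      linarith only [c2, a2]
    have a7 : s / 2 ≤ 8200 * ε ^ 4 := le_of_mul_le_mul_right a6 hh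
    have a8 : ε ^ 4 ≤ 1 / 10 ^ 12 * ε ^ 2 := by
      have : ε ^ 2 ≤ (1 / 10 ^ 6) ^ 2 := pow_le_pow_left₀ hε.le hε1 2
      have := mul_le_mul_of_nonneg_right this (sq_nonneg ε)
      linarith only [this]
    have : 0 < ε ^ 2 := by positivity
    linarith only [a7, a8, hs, this]

lemma final {ε s δ β B : ℝ} (hε : 0 < ε) (hε1 : ε ≤ 1 / 10 ^ 6) (hs : 399 / 100 * ε ^ 2 ≤ s)
    (hs2 : s ≤ 1 / 10 ^ 6) (hδ : 40 * ε * δ ≤ s) (hβ0 : 0 ≤ β) (hβ : β ≤ 1001 / 1000 * (2 * δ) + 352 / 100 * ε)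
    (hB : B * s ≤ 1001 / 1000 * ε + 118 * ε * s) (h1 : 1 ≤ β * B) : False := by
  have hs0 : 0 < s := lt_of_lt_of_le (by positivity) hs
  have e1 : s ≤ β * (B * s) := by
    have := mul_le_mul_of_nonneg_right h1 hs0.le
    linarith only [this]
  have e2 : β * (B * s) ≤ β * (1001 / 1000 * ε + 118 * ε * s) := mul_le_mul_of_nonneg_left hB hβ0
  have e3 : β * (1001 / 1000 * ε + 118 * ε * s) ≤
      (1001 / 1000 * (2 * δ) + 352 / 100 * ε) * (1001 / 1000 * ε + 118 * ε * s) :=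
    mul_le_mul_of_nonneg_right hβ (by positivity)
  have e4 : (40 * ε * δ) * (1001 / 1000 + 118 * s) ≤ s * (1001 / 1000 + 118 * s) :=
    mul_le_mul_of_nonneg_right hδ (by positivity)
  have e5 : s * s ≤ 1 / 10 ^ 6 * s := mul_le_mul_of_nonneg_right hs2 hs0.le
  have e6 : ε ^ 2 * s ≤ 1 / 10 ^ 12 * s := by
    have : ε ^ 2 ≤ (1 / 10 ^ 6) ^ 2 := pow_le_pow_left₀ hε.le hε1 2
    have := mul_le_mul_of_nonneg_right this hs0.le
    linarith only [this]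
  linarith only [e1, e2, e3, e4, e5, e6, hs, hs0]

lemma Tbound {ε a p cL cR cG k2 NL NR NG E1 E2 F δ : ℝ} (hε : 0 < ε) (hε1 : ε ≤ 1 / 10 ^ 6)
    (ha : 0 < a) (hap : a ≤ p * (1 + 2 * ε)) (hpp : 0 < p)
    (hk2 : |k2| ≤ 8 * ε + ε / 1000) (hsum : |cL + cR| ≤ ε / 1000) (hcL : |cL| ≤ 1 / 2) (hcR : |cR| ≤ 1 / 2)
    (hcG : |cG| ≤ 1 / 2) (hcG2 : |cG| ≤ δ + 3 / 4 * ε + ε / 1000) (hδ : 0 ≤ δ)
    (h1 : |(NG - NL) - a * ((cG - cL) + k2 / 2 * (cG ^ 2 - cL ^ 2))| ≤ E1)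
    (h2 : |(NR - NG) - a * ((cR - cG) + k2 / 2 * (cR ^ 2 - cG ^ 2))| ≤ E2)
    (hE : E1 + E2 ≤ 2 * (ε / 1000) * a + 4 * (ε / 1000) * p + 2 * F) :
    |2 * NG - NL - NR| ≤ p * (1001 / 1000 * (2 * δ) + 3515 / 1000 * ε) + 2 * F := by
  have hq : |2 * cG ^ 2 - cL ^ 2 - cR ^ 2| ≤ 1 / 2 := by
    have s1 : ∀ t : ℝ, |t| ≤ 1 / 2 → t ^ 2 ≤ 1 / 4 := by
      intro t ht
      have := pow_le_pow_left₀ (abs_nonneg t) ht 2
      rw [sq_abs] at this
      linarith only [this]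
    rw [abs_le]
    constructor <;> linarith only [s1 _ hcL, s1 _ hcR, s1 _ hcG, sq_nonneg cL, sq_nonneg cR, sq_nonneg cG]
  have e1 : 2 * NG - NL - NR = ((NG - NL) - a * ((cG - cL) + k2 / 2 * (cG ^ 2 - cL ^ 2))) -
      ((NR - NG) - a * ((cR - cG) + k2 / 2 * (cR ^ 2 - cG ^ 2))) +
      a * (2 * cG - (cL + cR) + k2 * (2 * cG ^ 2 - cL ^ 2 - cR ^ 2) / 2) := by ring
  have e2 : |2 * cG - (cL + cR) + k2 * (2 * cG ^ 2 - cL ^ 2 - cR ^ 2) / 2| ≤
      2 * |cG| + ε / 1000 + (8 * ε + ε / 1000) * (1 / 2) / 2 := by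
    refine (abs_add_le _ _).trans (add_le_add ((abs_sub _ _).trans (add_le_add ?_ hsum)) ?_)
    · rw [abs_mul, abs_of_pos (by norm_num : (0:ℝ) < 2)]
    · rw [abs_div, abs_mul, abs_of_pos (by norm_num : (0:ℝ) < 2)]
      have := mul_le_mul hk2 hq (abs_nonneg _) (by positivity)
      linarith only [this]
  have e3 : |2 * NG - NL - NR| ≤ E1 + E2 + a * (2 * |cG| + ε / 1000 + (8 * ε + ε / 1000) * (1 / 2) / 2) := by
    rw [e1]
    refine (abs_add_le _ _).trans (add_le_add ((abs_sub _ _).trans (add_le_add h1 h2)) ?_)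
    rw [abs_mul, abs_of_pos ha]
    exact mul_le_mul_of_nonneg_left e2 ha.le
  have e4 : a * (2 * |cG| + ε / 1000 + (8 * ε + ε / 1000) * (1 / 2) / 2 + 2 * (ε / 1000)) ≤
      (p * (1 + 2 * ε)) * (2 * δ + 3506 / 1000 * ε) := by
    refine mul_le_mul hap (by linarith only [hcG2, hε]) (by positivity) (by positivity)
  have e5 : (p * (1 + 2 * ε)) * (2 * δ + 3506 / 1000 * ε) ≤ (p * (1 + 2 / 10 ^ 6)) * (2 * δ + 3506 / 1000 * ε) :=
    mul_le_mul_of_nonneg_right (mul_le_mul_of_nonneg_left (by linarith only [hε1]) hpp.le) (by positivity)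
  have e6 : 0 ≤ p * δ := by positivity
  have e7 : 0 < p * ε := by positivity
  linarith only [e3, e4, e5, e6, e7, hE]

/-- the arithmetic lower bound -/
lemma betaW (hN0 : ST_N0) {Hm Hp : ℝ} {C : Set ℝ} {cd : CD Hm Hp C} (VL VR W : Gap cd) {p q : ℝ}
    (hp : p = VR.N - VL.N) (hp0 : 0 < p) (hu : |zn (VR.n - VL.n, VR.m - VL.m)| = 1)
    (hq : p * |VL.mu + VR.mu| ≤ q) :
    1 ≤ |2 * (W.N - (VL.N + VR.N) / 2) / p| *
      (p ^ 2 * |2 * (W.N - (VL.N + VR.N) / 2) / p| + 2 * p * |W.mu| + q) := by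
  obtain ⟨n1, n2, n3, n4, n5, n6, -, -, -⟩ := hN0
  obtain ⟨y, hy⟩ := n5 _ hu (W.n - VL.n, W.m - VL.m)
  have hzv : ∀ V W : Gap cd, zv (V.n - W.n, V.m - W.m) = V.N - W.N := by
    intro V W; simp only [zv, Gap.N]; push_cast; ring
  have hzc : ∀ V W : Gap cd, zc (V.n - W.n, V.m - W.m) = (V.N - V.mu) - (W.N - W.mu) := by
    intro V W
    rw [(n6 cd V).2, (n6 cd W).2]; simp only [zc]; push_cast; ring
  set P : ℤ × ℤ := (VR.n - VL.n, VR.m - VL.m) with hP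
  have hPv : zv P = p := by rw [hP, hzv, hp]
  have hPc : zc P = p - VR.mu + VL.mu := by rw [hP, hzc, hp]; ring
  have hPn : p * zc P = (zn P : ℝ) := by rw [← hPv]; exact n2 P
  have hv : p * zv y = W.N - VL.N := by
    have h1 := (n1 P y).1
    rw [hy, hzv, hPv] at h1
    linarith only [h1]
  have hc : zc P * zc y = (W.N - W.mu) - (VL.N - VL.mu) := by
    have h1 := (n1 P y).2.1
    rw [hy, hzc] at h1
    linarith only [h1]
  set z : ℝ := (zn P : ℝ) with hzdef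
  have hz1 : |z| = 1 := by rw [hzdef, ← Int.cast_abs, hu]; simp
  have hz2 : z ^ 2 = 1 := by rw [← sq_abs, hz1]; norm_num
  set β : ℝ := 2 * (W.N - (VL.N + VR.N) / 2) / p with hβ
  have hβp : β * p = 2 * W.N - VL.N - VR.N := by rw [hβ]; field_simp; ring
  have hβ1 : β = 2 * zv y - 1 := by
    have : β * p = (2 * zv y - 1) * p := by rw [hβp]; linarith only [hv, hp]
    exact mul_right_cancel₀ hp0.ne' this
  -- conjugate
  set B : ℝ := 2 * zc y - 1 with hB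
  have hzy : zc y = z * p * ((W.N - W.mu) - (VL.N - VL.mu)) := by
    rw [← hc]
    have : z * p * (zc P * zc y) = z * (p * zc P) * zc y := by ring
    rw [this, hPn, ← sq, hz2, one_mul]
  have hone : z * p * (p - VR.mu + VL.mu) = 1 := by
    rw [← hPc, mul_assoc, hPn, ← sq, hz2]
  have hB1 : B = z * (p * (β * p)) + z * (-(2 * p * W.mu)) + z * (p * (VL.mu + VR.mu)) := by
    rw [hB, hzy, hβp, ← hone, hp]; ring
  have hBabs : |B| ≤ p ^ 2 * |β| + 2 * p * |W.mu| + q := by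
    rw [hB1]
    have hz : ∀ t : ℝ, |z * t| = |t| := fun t => by rw [abs_mul, hz1, one_mul]
    refine (abs_add_le _ _).trans (add_le_add ((abs_add_le _ _).trans (add_le_add ?_ ?_)) ?_)
    · rw [hz, abs_mul, abs_mul, abs_of_pos hp0]; linarith only [(by ring : p * (|β| * p) = p ^ 2 * |β|)]
    · rw [hz, abs_neg, abs_mul, abs_mul, abs_of_pos hp0, abs_of_pos (by norm_num : (0:ℝ) < 2)]
    · rw [hz, abs_mul, abs_of_pos hp0]; exact hq
  -- norm
  set Y : ℤ × ℤ := (2 * y.1 - 1, 2 * y.2) with hY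
  have hYv : zv Y = β := by rw [hβ1, hY]; simp only [zv]; push_cast; ring
  have hYc : zc Y = B := by rw [hB, hY]; simp only [zc]; push_cast; ring
  have hY0 : zn Y ≠ 0 := by
    intro h0
    have h1 := n3 Y h0
    have h2 : 2 * y.1 - 1 = 0 := by
      have := congrArg Prod.fst h1
      simpa [hY] using this
    omega
  have hYn : 1 ≤ |β| * |B| := by
    rw [← abs_mul, ← hYv, ← hYc, n2 Y, ← Int.cast_abs]
    have : 1 ≤ |zn Y| := Int.one_le_abs hY0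
    exact_mod_cast this
  exact hYn.trans (mul_le_mul_of_nonneg_left hBabs (abs_nonneg _))

end Pool.Agent.Helper52.CV.R9
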